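import Pool.Agent.K7.H89.U.E

/-!
# A relaxed Selmer element for `y² + y = x³` over a number field containing the third roots of unity
-/

set_option autoImplicit false
set_option linter.unusedSectionVars false

namespace Pool.Agent.K7.H89.U

open IsDedekindDomain NumberField WithZero Pool.Agent.Y696
open Pool.Agent.TeamU (SU)
open Pool.Agent.R425.G (Sqr SqrH Two mem_two sqrH_le)

/-- the pigeonhole principle -/
theorem exists_z {F A : Type} [Field F] [NumberField F] [Field A] [NumberField A] [Algebra F A]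
    (e : Cb F ≃+* A) (he : ∀ r, e (Cb.C r) = algebraMap F A r)
    {ω : F} (hω : ω ^ 2 + ω + 1 = 0)
    (h2 : ∀ v : HeightOneSpectrum (𝓞 F), ((2 : ℕ) : 𝓞 F) ∈ v.asIdeal →
      v.valuation F 2 = exp (-1 : ℤ))
    {w : HeightOneSpectrum (𝓞 F)} (hw : ((6 : ℕ) : 𝓞 F) ∉ w.asIdeal)
    (x : 𝓞 F) (hx : x ^ 3 - 2 ∈ w.asIdeal) :
    ∃ z : Aˣ, z ∈ SU (SS A w) ∧ z ∈ LL e ∧
      z ∉ SqrH (SU (SS A w)) ⊔ (SU {w}).map (io F A) := by
  set G := SU (SS A w) with hG
  set Q : Subgroup Aˣ := (SU {w}).map (io F A) with hQ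
  have hQG : Q ≤ G := by
    rintro _ ⟨r, hr, rfl⟩
    exact io_mem hr
  set B : Subgroup Aˣ := SqrH G ⊔ Q with hB
  have hBG : B ≤ G := sup_le (sqrH_le G) hQG
  obtain ⟨hI0, hIle⟩ := LL_idx e he hω h2 hw
  have hX : (SqrH G).relIndex G = 2 ^ (Units.rank A + (SS A w).card + 1) := idx_su _
  have hX1 : (SqrH G).relIndex B * B.relIndex G = (SqrH G).relIndex G :=
    Subgroup.relIndex_mul_relIndex _ _ _ le_sup_left hBG
  have hX2 : (SqrH G).relIndex B ≤ 2 ^ (Units.rank F + 1 + 1) := by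
    have e1 : (SqrH G).relIndex B = (SqrH G).relIndex Q := by
      rw [hB, Subgroup.relIndex_sup_left]
    have e2 : (SqrH G).relIndex Q ∣ (SqrH (SU {w})).relIndex (SU {w}) := by
      rw [hQ, ← Subgroup.relIndex_comap]
      apply Subgroup.relIndex_dvd_of_le_left
      rintro _ ⟨x, hx, rfl⟩
      exact ⟨io F A x, io_mem hx, by
        show (io F A x) ^ 2 = io F A (x ^ 2)
        rw [map_pow]⟩
    have e3 : (SqrH (SU {w})).relIndex (SU {w}) = 2 ^ (Units.rank F + 1 + 1) := by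
      rw [idx_su, Finset.card_singleton]
    rw [e1]
    rw [e3] at e2
    exact Nat.le_of_dvd (by positivity) e2
  by_contra hcon
  push Not at hcon
  have hle : LL e ⊓ G ≤ B := fun z hz => hcon z hz.2 hz.1
  have h1 : B.relIndex G ∣ (LL e).relIndex G := by
    have := Subgroup.relIndex_dvd_of_le_left G hle
    rwa [Subgroup.inf_relIndex_right] at this
  have h4 : B.relIndex G ≤ 2 ^ Module.finrank ℚ F :=
    (Nat.le_of_dvd (Nat.pos_of_ne_zero hI0) h1).trans hIle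
  have h5 : (SqrH G).relIndex G ≤ 2 ^ (Units.rank F + 1 + 1) * 2 ^ Module.finrank ℚ F := by
    rw [← hX1]
    exact Nat.mul_le_mul hX2 h4
  rw [hX, ← pow_add] at h5
  have h6 := (Nat.pow_le_pow_iff_right (by norm_num : 1 < 2)).1 h5
  have h7 := rank_of hω
  have h8 : 2 * (Units.rank A + 1) = Module.finrank ℚ A := by
    refine rank_of (ω := algebraMap F A ω) ?_
    rw [← map_pow, ← map_one (algebraMap F A), ← map_add, ← map_add, hω, map_zero]
  have h9 := finrank_A_rat e he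
  have h10 := two_le_SS e he hω hw x hx
  omega

theorem exists_q8 (F : Type) [Field F] [NumberField F] {ω : F} (hω : ω ^ 2 + ω + 1 = 0)
    (h2 : ∀ v : HeightOneSpectrum (𝓞 F), ((2 : ℕ) : 𝓞 F) ∈ v.asIdeal →
      v.valuation F 2 = exp (-1 : ℤ))
    (h3 : ∀ x : F, x ^ 3 ≠ 2) (w : HeightOneSpectrum (𝓞 F)) (hw : ((6 : ℕ) : 𝓞 F) ∉ w.asIdeal)
    (x : 𝓞 F) (hx : x ^ 3 - 2 ∈ w.asIdeal) :
    ∃ δ : Cb F, δ.N ≠ 0 ∧ (∃ r, δ.N = r ^ 2) ∧ ¬ IsSquare δ ∧
      (∀ v : HeightOneSpectrum (𝓞 F), ((6 : ℕ) : 𝓞 F) ∉ v.asIdeal → v ≠ w →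
        EvV (v.valuation F) δ) ∧
      (∀ v : HeightOneSpectrum (𝓞 F), ((2 : ℕ) : 𝓞 F) ∈ v.asIdeal → LvV (v.valuation F) δ) := by
  obtain ⟨A, i1, i2, i3, e, he⟩ := exists_A F h3
  obtain ⟨z, hzG, hzI, hzB⟩ := exists_z e he hω h2 hw x hx
  set N : Fˣ := nrm e z with hN
  have hNS : N ∈ SU {w} := nrm_mem e he hω hzG
  have hNval : (N : F) = (e.symm z).N := rfl
  set y : Aˣ := z * io F A N with hy
  have hyG : y ∈ SU (SS A w) := (SU (SS A w)).mul_mem hzG (io_mem hNS)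
  have hye : e.symm (y : A) = e.symm (z : A) * Cb.C (N : F) := by
    rw [hy, Units.val_mul, map_mul, io_val, ← he, e.symm_apply_apply]
  refine ⟨e.symm (y : A), (nrm e y).ne_zero, ⟨(N : F) ^ 2, ?_⟩, ?_, ?_, ?_⟩
  · rw [hye, Cb.N_mul, Cb.N_C, ← hNval]
    ring
  · rintro ⟨s, hs⟩
    apply hzB
    have hs' : (y : A) = e s ^ 2 := by
      rw [pow_two, ← map_mul, ← hs, e.apply_symm_apply]
    have hs0 : e s ≠ 0 := by
      intro h
      rw [h, zero_pow two_ne_zero] at hs'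
      exact y.ne_zero hs'
    have hzN : y = (Units.mk0 (e s) hs0) ^ 2 := Units.ext (by rw [hs']; rfl)
    have hsG : Units.mk0 (e s) hs0 ∈ SU (SS A w) := by
      intro u hu
      have h5 := hyG u hu
      rw [hzN] at h5
      have h6 : u.valuation A (((Units.mk0 (e s) hs0) ^ 2 : Aˣ) : A) = 1 := h5
      rw [Units.val_pow_eq_pow_val, map_pow] at h6
      exact (pow_eq_one_iff_of_nonneg zero_le (by norm_num)).1 h6
    have hz : z = (Units.mk0 (e s) hs0) ^ 2 * io F A N⁻¹ := by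
      rw [map_inv, ← hzN, hy, mul_inv_cancel_right]
    rw [hz]
    exact Subgroup.mul_mem_sup ⟨_, hsG, rfl⟩ ⟨N⁻¹, (SU {w}).inv_mem hNS, rfl⟩
  · intro v hv hvw
    refine evV_of e he hv fun u hu => ?_
    rw [e.apply_symm_apply]
    refine hyG u ?_
    intro hmem
    exact hvw (over_unique hu (mem_SS.1 (Finset.mem_coe.1 hmem)))
  · intro v hv
    have h2v : v.valuation F 2 < 1 := by rw [h2 v hv, ← exp_zero, exp_lt_exp]; omega
    rw [hye]
    refine ((mem_LL e).1 hzI v hv).mul h2v ⟨1, by simp, ?_⟩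
    rw [one_pow, mul_one]
    have h4 : v.valuation F (N : F) = 1 := by
      refine hNS v ?_
      intro hmem
      have hvw : v = w := by simpa using hmem
      apply hw
      rw [← hvw]
      have : ((6 : ℕ) : 𝓞 F) = ((3 : ℕ) : 𝓞 F) * ((2 : ℕ) : 𝓞 F) := by push_cast; norm_num
      rw [this]
      exact v.asIdeal.mul_mem_left _ hv
    refine ⟨h4, ?_, ?_⟩
    · rw [Cb.C_b, map_zero]
      exact zero_lt_one
    · rw [Cb.C_c, map_zero]
      exact zero_le_one

end Pool.Agent.K7.H89.U
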