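import Pool.Agent.Y696.EvL

/-!
# Elements of `K(2^{1/3})` at a place over two
-/

set_option autoImplicit false
set_option linter.unusedSectionVars false
set_option linter.unusedVariables false

namespace Pool.Agent.K7.H89.U

open WithZero Pool.Agent.Y696

section ring
variable {R : Type} [CommRing R]

lemma pi_of (x : Cb R) (h : 2 ∣ x.a) : ∃ y : Cb R, x = Cb.pi * y := by
  obtain ⟨a, ha⟩ := h
  refine ⟨⟨x.b, x.c, a⟩, ?_⟩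
  ext
  · simp [ha]
  · simp
  · simp

lemma level2 (hp : ∀ x : R, ∃ y, 2 ∣ x - y ^ 2) (η : Cb R) :
    ∃ (x : R) (μ : Cb R), (1 + Cb.pi ^ 2 * η) * (1 + Cb.C x * Cb.pi) ^ 2 = 1 + 2 * μ := by
  obtain ⟨x, k, hk⟩ := hp (-η.a)
  obtain ⟨y, hy⟩ := pi_of (η + Cb.C x ^ 2) ⟨-k, by
    rw [Cb.add_a, ← map_pow, Cb.C_a]
    linear_combination -hk⟩
  refine ⟨x, y + Cb.pi * (Cb.C x * (1 + Cb.pi ^ 2 * η) + Cb.C x ^ 2 * η), ?_⟩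
  have h3 := Cb.pi_cube (R := R)
  linear_combination Cb.pi ^ 2 * hy + (y + Cb.pi * Cb.C x ^ 2 * η) * h3

/-- the square roots of one modulo two -/
lemma root_two (hl : ∀ x : R, IsUnit x ∨ 2 ∣ x) (h2 : ¬ IsUnit (2 : R)) {r k : R}
    (h : r ^ 2 = 1 + 2 * k) : ∃ z, r = 1 + 2 * z := by
  have hd : ∀ x : R, IsUnit x → ¬ 2 ∣ x := fun x hx h => h2 (isUnit_of_dvd_unit h hx)
  rcases hl (r - 1) with h1 | ⟨z, hz⟩
  · exfalso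
    have h3 : IsUnit (r + 1) := by
      rcases hl (r + 1) with h4 | ⟨z, hz⟩
      · exact h4
      · exact absurd ⟨z - 1, by linear_combination hz⟩ (hd _ h1)
    refine hd _ (h1.mul h3) ⟨k, by linear_combination h⟩
  · exact ⟨z, by linear_combination hz⟩

lemma level3 (hl : ∀ x : R, IsUnit x ∨ 2 ∣ x) (h2 : ¬ IsUnit (2 : R)) (h20 : ∀ x : R, 2 * x = 0 → x = 0)
    {μ : Cb R} (hN : ∃ r, (1 + 2 * μ).N = r ^ 2) : ∃ y : Cb R, (1 + 2 * μ) = 1 + 2 * Cb.pi * y := by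
  obtain ⟨r, hr⟩ := hN
  have e1 : (1 + 2 * μ).N = 1 + 2 * μ.a + 4 * (μ.a + 3 * μ.a ^ 2 + 2 * μ.a ^ 3 + 4 * μ.b ^ 3 +
      8 * μ.c ^ 3 - 6 * (1 + 2 * μ.a) * μ.b * μ.c) := by
    simp only [Cb.N, Cb.add_a, Cb.add_b, Cb.add_c, Cb.mul_a, Cb.mul_b, Cb.mul_c, Cb.two_a, Cb.two_b,
      Cb.two_c, Cb.one_a, Cb.one_b, Cb.one_c]
    ring
  set q := μ.a + 3 * μ.a ^ 2 + 2 * μ.a ^ 3 + 4 * μ.b ^ 3 +
      8 * μ.c ^ 3 - 6 * (1 + 2 * μ.a) * μ.b * μ.c with hq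
  obtain ⟨z, rfl⟩ := root_two hl h2 (r := r) (k := μ.a + 2 * q) (by rw [← hr, e1]; ring)
  have h3 : μ.a = 2 * (z + z ^ 2 - q) := by
    rw [← sub_eq_zero]
    apply h20
    linear_combination hr - e1
  obtain ⟨y, hy⟩ := pi_of μ ⟨_, h3⟩
  exact ⟨y, by rw [hy]; ring⟩

lemma level5 (hp : ∀ x : R, ∃ y, 2 ∣ x - y ^ 2) (h20 : (2 : R) ≠ 0) (η : Cb R) :
    ∃ (x t : R) (ζ : Cb R), t ≠ 0 ∧
      (1 + 2 * Cb.pi * η) * (1 + Cb.C x * Cb.pi ^ 2) ^ 2 = (1 + 2 * Cb.pi * Cb.C t ^ 2) + 4 * ζ := by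
  have h3 := Cb.pi_cube (R := R)
  set x : R := -η.b with hx
  obtain ⟨t, d, htd, ht0⟩ : ∃ t d : R, η.a + x ^ 2 - t ^ 2 = 2 * d ∧ t ≠ 0 := by
    obtain ⟨t, d, hd⟩ := hp (η.a + x ^ 2)
    by_cases ht : t = 0
    · exact ⟨2, d - 2, by rw [ht] at hd; linear_combination hd, h20⟩
    · exact ⟨t, d, hd, ht⟩
  refine ⟨x, t, Cb.C η.c + Cb.pi * Cb.C d + Cb.pi ^ 2 * η * (Cb.C x ^ 2 + Cb.C x * Cb.pi), ht0, ?_⟩
  have e1 : η = Cb.C η.a + Cb.C η.b * Cb.pi + Cb.C η.c * Cb.pi ^ 2 := Cb.form η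
  have e2 : Cb.C η.a + Cb.C x ^ 2 - Cb.C t ^ 2 = 2 * Cb.C d := by
    rw [← map_pow, ← map_pow, ← map_add, ← map_sub, htd, map_mul, map_ofNat]
  have e3 : Cb.C η.b = -Cb.C x := by rw [← map_neg, hx, neg_neg]
  rw [e3] at e1
  have e4 : η = Cb.C η.a - Cb.C x * Cb.pi + Cb.C η.c * Cb.pi ^ 2 := by
    conv_lhs => rw [e1]
    ring
  linear_combination 2 * Cb.pi * e4 + 2 * Cb.pi * e2 +
    (2 * η * Cb.C x ^ 2 * Cb.pi ^ 2 + Cb.C x ^ 2 * Cb.pi + 2 * Cb.C η.c) * h3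

lemma level6 (hl : ∀ x : R, IsUnit x ∨ 2 ∣ x) (h2 : ¬ IsUnit (2 : R))
    (h20 : ∀ x : R, 2 * x = 0 → x = 0) {t : R} {ζ : Cb R}
    (hN : ∃ r, ((1 + 2 * Cb.pi * Cb.C t ^ 2) * (1 + 4 * ζ)).N = r ^ 2) :
    ∃ (z : R) (η : Cb R), (1 + 4 * ζ) * (1 + 2 * Cb.C z) ^ 2 = 1 + 4 * Cb.pi * η := by
  obtain ⟨r, hr⟩ := hN
  have four : (4 : Cb R) = Cb.C 4 := (map_ofNat Cb.C 4).symm
  have e1 : (1 + 4 * ζ).N = 1 + 4 * ζ.a + 8 * (ζ.a + 6 * ζ.a ^ 2 + 8 * ζ.a ^ 3 + 16 * ζ.b ^ 3 +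
      32 * ζ.c ^ 3 - 12 * (1 + 4 * ζ.a) * ζ.b * ζ.c) := by
    simp only [Cb.N, Cb.add_a, Cb.add_b, Cb.add_c, Cb.mul_a, Cb.mul_b, Cb.mul_c, four, Cb.C_a,
      Cb.C_b, Cb.C_c, Cb.one_a, Cb.one_b, Cb.one_c]
    ring
  have e2 : (1 + 2 * Cb.pi * Cb.C t ^ 2).N = 1 + 16 * t ^ 6 := by
    rw [← map_pow]
    simp only [Cb.N, Cb.add_a, Cb.add_b, Cb.add_c, Cb.mul_a, Cb.mul_b, Cb.mul_c, Cb.two_a, Cb.two_b,
      Cb.two_c, Cb.one_a, Cb.one_b, Cb.one_c, Cb.C_a, Cb.C_b, Cb.C_c, Cb.pi_a, Cb.pi_b, Cb.pi_c]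
    ring
  rw [Cb.N_mul, e1, e2] at hr
  set q := ζ.a + 6 * ζ.a ^ 2 + 8 * ζ.a ^ 3 + 16 * ζ.b ^ 3 +
      32 * ζ.c ^ 3 - 12 * (1 + 4 * ζ.a) * ζ.b * ζ.c with hq
  obtain ⟨z, rfl⟩ := root_two hl h2 (r := r) (k := 2 * ζ.a + 4 * q + 8 * t ^ 6 *
    (1 + 4 * ζ.a + 8 * q)) (by rw [← hr]; ring)
  obtain ⟨y, hy⟩ := pi_of (ζ + Cb.C (z + z ^ 2)) ⟨z + z ^ 2 - q - 2 * t ^ 6 *
      (1 + 4 * ζ.a + 8 * q), by
    rw [Cb.add_a, Cb.C_a, ← sub_eq_zero]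
    apply h20
    apply h20
    linear_combination hr⟩
  have h3 := Cb.pi_cube (R := R)
  have hW : (Cb.C (z + z ^ 2) : Cb R) = Cb.C z + Cb.C z ^ 2 := by rw [map_add, map_pow]
  rw [hW] at hy
  refine ⟨z, y + 2 * Cb.pi ^ 2 * ζ * (Cb.C z + Cb.C z ^ 2), ?_⟩
  linear_combination 4 * hy - 8 * ζ * (Cb.C z + Cb.C z ^ 2) * h3

/-- the elements with a unit as first coordinate have a unit as norm -/
lemma isUnit_N (hl : ∀ x : R, IsUnit x ∨ 2 ∣ x) (h2 : ¬ IsUnit (2 : R)) {x : Cb R}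
    (hx : IsUnit x.a) : IsUnit x.N := by
  have hd : ∀ x : R, IsUnit x → ¬ 2 ∣ x := fun x hx h => h2 (isUnit_of_dvd_unit h hx)
  rcases hl x.N with h | ⟨k, hk⟩
  · exact h
  · exfalso
    refine hd _ (hx.pow 3) ⟨k - x.b ^ 3 - 2 * x.c ^ 3 + 3 * x.a * x.b * x.c, ?_⟩
    rw [Cb.N] at hk
    linear_combination hk

/-- the elements with a unit as first coordinate are units -/
lemma isUnit_of (hl : ∀ x : R, IsUnit x ∨ 2 ∣ x) (h2 : ¬ IsUnit (2 : R)) {x : Cb R}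
    (hx : IsUnit x.a) : IsUnit x := by
  have h1 : IsUnit x.N := isUnit_N hl h2 hx
  have h3 := x.mul_adj
  exact isUnit_of_mul_isUnit_left (h3 ▸ h1.map Cb.C)

theorem ring_two (hl : ∀ x : R, IsUnit x ∨ 2 ∣ x) (h2 : ¬ IsUnit (2 : R)) (h20' : (2 : R) ≠ 0)
    (h20 : ∀ x : R, 2 * x = 0 → x = 0) (hp : ∀ x : R, ∃ y, 2 ∣ x - y ^ 2) {δ : Cb R}
    (ha : IsUnit δ.a) (hb : 2 ∣ δ.b) (hN : ∃ r, δ.N = r ^ 2) :
    ∃ (S η : Cb R) (t : R), IsUnit S.N ∧ t ≠ 0 ∧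
      δ * S ^ 2 = (1 + 2 * Cb.pi * Cb.C t ^ 2) * (1 + 4 * Cb.pi * η) := by
  have h3 := Cb.pi_cube (R := R)
  have hd : ∀ x : R, IsUnit x → ¬ 2 ∣ x := fun x hx h => h2 (isUnit_of_dvd_unit h hx)
  -- level one
  obtain ⟨y, a', ha'⟩ := hp δ.a
  obtain ⟨b', hb'⟩ := hb
  have hy : IsUnit y := by
    rcases hl y with h | ⟨k, rfl⟩
    · exact h
    · exact absurd ⟨a' + 2 * k ^ 2, by linear_combination ha'⟩ (hd _ ha)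
  obtain ⟨u, hu⟩ := hy.exists_right_inv
  have e1 : δ * Cb.C u ^ 2 = 1 + Cb.pi ^ 2 * (Cb.C (δ.c * u ^ 2) + Cb.pi * Cb.C (a' * u ^ 2) +
      Cb.pi ^ 2 * Cb.C (b' * u ^ 2)) := by
    have e0 : δ = Cb.C (y ^ 2 + 2 * a') + Cb.C (2 * b') * Cb.pi + Cb.C δ.c * Cb.pi ^ 2 := by
      conv_lhs => rw [Cb.form δ]
      rw [← hb', ← ha', add_sub_cancel]
    have hu' : Cb.C y * Cb.C u = (1 : Cb R) := by rw [← map_mul, hu, map_one]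
    have e2 : δ = Cb.C y ^ 2 + 2 * Cb.C a' + 2 * Cb.C b' * Cb.pi + Cb.C δ.c * Cb.pi ^ 2 := by
      conv_lhs => rw [e0]
      simp only [map_add, map_mul, map_pow, map_ofNat]
    simp only [map_mul, map_pow]
    set D := Cb.C δ.c
    rw [e2]
    linear_combination (Cb.C y * Cb.C u + 1) * hu' -
      (Cb.C a' * Cb.C u ^ 2 + Cb.pi * Cb.C b' * Cb.C u ^ 2) * h3
  obtain ⟨x2, μ, hμ⟩ := level2 hp (Cb.C (δ.c * u ^ 2) + Cb.pi * Cb.C (a' * u ^ 2) +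
      Cb.pi ^ 2 * Cb.C (b' * u ^ 2))
  rw [← e1] at hμ
  obtain ⟨r, hr⟩ := hN
  obtain ⟨η3, hη3⟩ := level3 hl h2 h20 (μ := μ) ⟨r * (Cb.C u).N * (1 + Cb.C x2 * Cb.pi).N, by
    rw [← hμ, pow_two (Cb.C u), pow_two (1 + Cb.C x2 * Cb.pi), Cb.N_mul, Cb.N_mul, Cb.N_mul,
      Cb.N_mul, hr]
    ring⟩
  obtain ⟨x5, t, ζ, ht0, hζ⟩ := level5 hp h20' η3
  have hε : IsUnit (1 + 2 * Cb.pi * Cb.C t ^ 2) := by
    refine isUnit_of hl h2 ?_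
    have : (1 + 2 * Cb.pi * Cb.C t ^ 2 : Cb R).a = 1 := by
      rw [← map_pow]
      simp only [Cb.add_a, Cb.mul_a, Cb.mul_b, Cb.mul_c, Cb.two_a, Cb.two_b, Cb.two_c, Cb.one_a,
        Cb.C_a, Cb.C_b, Cb.C_c, Cb.pi_a, Cb.pi_b, Cb.pi_c]
      ring
    rw [this]
    exact isUnit_one
  obtain ⟨ε', hε'⟩ := hε.exists_right_inv
  have e6 : (1 + 2 * Cb.pi * Cb.C t ^ 2) + 4 * ζ =
      (1 + 2 * Cb.pi * Cb.C t ^ 2) * (1 + 4 * (ε' * ζ)) := by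
    linear_combination -4 * ζ * hε'
  obtain ⟨z, η, hη⟩ := level6 hl h2 h20 (t := t) (ζ := ε' * ζ)
    ⟨r * (Cb.C u).N * (1 + Cb.C x2 * Cb.pi).N * (1 + Cb.C x5 * Cb.pi ^ 2).N, by
      rw [← e6, ← hζ, ← hη3, ← hμ, pow_two (Cb.C u), pow_two (1 + Cb.C x2 * Cb.pi),
        pow_two (1 + Cb.C x5 * Cb.pi ^ 2), Cb.N_mul, Cb.N_mul, Cb.N_mul, Cb.N_mul, Cb.N_mul,
        Cb.N_mul, hr]
      ring⟩
  have q1 : IsUnit (Cb.C u : Cb R).N := isUnit_N hl h2 (by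
    rw [Cb.C_a]
    exact IsUnit.of_mul_eq_one y (by rw [mul_comm]; exact hu))
  have q2 : IsUnit (1 + Cb.C x2 * Cb.pi : Cb R).N := isUnit_N hl h2 (by
    simp only [Cb.add_a, Cb.mul_a, Cb.one_a, Cb.C_a, Cb.C_b, Cb.C_c, Cb.pi_a, Cb.pi_b, Cb.pi_c]
    simp)
  have q3 : IsUnit (1 + Cb.C x5 * Cb.pi ^ 2 : Cb R).N := isUnit_N hl h2 (by
    simp only [pow_two, Cb.add_a, Cb.mul_a, Cb.mul_b, Cb.mul_c, Cb.one_a, Cb.C_a, Cb.C_b, Cb.C_c,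
      Cb.pi_a, Cb.pi_b, Cb.pi_c]
    simp)
  have q4 : IsUnit (1 + 2 * Cb.C z : Cb R).N := isUnit_N hl h2 (by
    simp only [Cb.add_a, Cb.mul_a, Cb.one_a, Cb.C_a, Cb.C_b, Cb.C_c, Cb.two_a, Cb.two_b, Cb.two_c]
    rcases hl (1 + (2 * z + 2 * (0 * 0 + 0 * 0))) with h | ⟨k, hk⟩
    · exact h
    · exact absurd ⟨k - z, by linear_combination hk⟩ (hd 1 isUnit_one))
  refine ⟨Cb.C u * (1 + Cb.C x2 * Cb.pi) * (1 + Cb.C x5 * Cb.pi ^ 2) * (1 + 2 * Cb.C z), η, t,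
    by rw [Cb.N_mul, Cb.N_mul, Cb.N_mul]; exact ((q1.mul q2).mul q3).mul q4, ht0, ?_⟩
  rw [← hη, ← mul_assoc, ← e6, ← hζ, ← hη3, ← hμ]
  ring

end ring

theorem two_adic {K : Type} [Field K] (v : Valuation K ℤᵐ⁰) (h2 : v 2 = exp (-1 : ℤ))
    (hp : ∀ x, v x ≤ 1 → ∃ y, v y ≤ 1 ∧ v (x - y ^ 2) < 1)
    {δ : Cb K} (hN : δ.N ≠ 0) (hr : ∃ r, δ.N = r ^ 2) (hL : LvV v δ) :
    ∃ (S η : Cb K) (t : K), S.N ≠ 0 ∧ t ≠ 0 ∧ v t ≤ 1 ∧ v η.a ≤ 1 ∧ v η.b ≤ 1 ∧ v η.c ≤ 1 ∧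
      δ * S ^ 2 = (1 + 2 * Cb.pi * Cb.C t ^ 2) * (1 + 4 * Cb.pi * η) := by
  have h20 : (2 : K) ≠ 0 := two_ne_of h2
  obtain ⟨s, hs, h1, h3, h4⟩ := hL
  let R := v.integer
  let f : R →+* K := v.integer.subtype
  have hf : Function.Injective f := Subtype.val_injective
  have hlt : ∀ x : K, v x < 1 → ∃ y : R, x = 2 * (y : K) := by
    intro x hx
    refine ⟨⟨2⁻¹ * x, half_le h2 hx⟩, ?_⟩
    change x = 2 * (2⁻¹ * x)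
    rw [mul_inv_cancel_left₀ h20]
  have h2lt : v 2 < 1 := by rw [h2, ← exp_zero, exp_lt_exp]; omega
  have hu : ∀ x : R, v (x : K) = 1 → IsUnit x := by
    intro x hx
    have hx0 : (x : K) ≠ 0 := by
      intro h
      rw [h, map_zero] at hx
      exact zero_ne_one hx
    refine IsUnit.of_mul_eq_one ⟨(x : K)⁻¹, ?_⟩ ?_
    · change v (x : K)⁻¹ ≤ 1
      rw [map_inv₀, hx, inv_one]
    · apply Subtype.ext
      exact mul_inv_cancel₀ hx0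
  have hl : ∀ x : R, IsUnit x ∨ 2 ∣ x := by
    intro x
    rcases lt_or_eq_of_le (show v (x : K) ≤ 1 from x.2) with h | h
    · obtain ⟨y, hy⟩ := hlt _ h
      exact Or.inr ⟨y, Subtype.ext hy⟩
    · exact Or.inl (hu x h)
  have hn2 : ¬ IsUnit (2 : R) := by
    intro h
    obtain ⟨y, hy⟩ := h.exists_right_inv
    have h5 : (2 : K) * (y : K) = 1 := congrArg Subtype.val hy
    have h6 : v 2 * v (y : K) < 1 :=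
      mul_lt_one_of_nonneg_of_lt_one_left zero_le h2lt y.2
    rw [← map_mul, h5, map_one] at h6
    exact lt_irrefl _ h6
  have h20' : ∀ x : R, 2 * x = 0 → x = 0 := by
    intro x hx
    have h5 : (2 : K) * (x : K) = 0 := congrArg Subtype.val hx
    exact Subtype.ext ((mul_eq_zero.1 h5).resolve_left h20)
  have h2R : (2 : R) ≠ 0 := by
    intro h
    exact h20 (congrArg Subtype.val h)
  have hpR : ∀ x : R, ∃ y, 2 ∣ x - y ^ 2 := by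
    intro x
    obtain ⟨y, hy, hxy⟩ := hp x x.2
    obtain ⟨z, hz⟩ := hlt _ hxy
    exact ⟨⟨y, hy⟩, z, Subtype.ext hz⟩
  obtain ⟨b', hb'⟩ := hlt _ h3
  let δ1 : Cb R := ⟨⟨(δ * s ^ 2).a, h1.le⟩, 2 * b', ⟨(δ * s ^ 2).c, h4⟩⟩
  have hδ1 : Cb.map f δ1 = δ * s ^ 2 := by
    ext
    · rfl
    · exact hb'.symm
    · rfl
  have hN1 : ∃ r, δ1.N = r ^ 2 := by
    obtain ⟨r, hr⟩ := hr
    have h5 : f δ1.N = (r * s.N) ^ 2 := by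
      rw [← Cb.N_map, hδ1, pow_two s, Cb.N_mul, Cb.N_mul, hr]
      ring
    have h6 : v (r * s.N) ≤ 1 := by
      have h7 : v (f δ1.N) ≤ 1 := δ1.N.2
      rw [h5, map_pow] at h7
      exact (pow_le_one_iff (by norm_num)).1 h7
    exact ⟨⟨r * s.N, h6⟩, Subtype.ext h5⟩
  obtain ⟨S, η, t, hSu, ht0, hS⟩ := ring_two hl hn2 h2R h20' hpR (δ := δ1) (hu _ h1) ⟨b', rfl⟩ hN1
  have hS' := congrArg (Cb.map f) hS
  simp only [map_mul, map_pow, map_add, map_one, map_ofNat, Cb.map_pi, Cb.map_C] at hS'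
  rw [hδ1] at hS'
  refine ⟨s * Cb.map f S, Cb.map f η, f t, ?_, ?_, t.2, η.a.2, η.b.2, η.c.2, ?_⟩
  · rw [Cb.N_mul, Cb.N_map]
    exact mul_ne_zero hs ((hSu.map f).ne_zero)
  · intro h
    exact ht0 (hf (by rw [h, map_zero]))
  · rw [← hS']
    ring

end Pool.Agent.K7.H89.U
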