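import Mathlib

/-!
# Congruences modulo the maximal ideal of a valuation and the Frobenius map
-/

set_option autoImplicit false
set_option linter.all false

open scoped NNReal
open Polynomial

namespace Pool.Agent.K7.H89.U

section frob

variable {F : Type} [Field F] (w : Valuation F ℝ≥0)

/-- congruence modulo the maximal ideal -/
def Cg (x y : F) : Prop := w (x - y) < 1

variable {w}

theorem Cg.refl (x : F) : Cg w x x := by
  unfold Cg
  rw [sub_self, map_zero]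
  exact zero_lt_one

theorem Cg.symm {x y : F} (h : Cg w x y) : Cg w y x := by
  unfold Cg at *
  rw [Valuation.map_sub_swap]
  exact h

theorem Cg.trans {x y z : F} (h : Cg w x y) (h' : Cg w y z) : Cg w x z := by
  unfold Cg at *
  have : x - z = (x - y) + (y - z) := by ring
  rw [this]
  exact Valuation.map_add_lt _ h h'

theorem Cg.add {x y x' y' : F} (h : Cg w x x') (h' : Cg w y y') : Cg w (x + y) (x' + y') := by
  unfold Cg at *
  have : x + y - (x' + y') = (x - x') + (y - y') := by ring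
  rw [this]
  exact Valuation.map_add_lt _ h h'

theorem Cg.neg {x x' : F} (h : Cg w x x') : Cg w (-x) (-x') := by
  unfold Cg at *
  have : -x - -x' = -(x - x') := by ring
  rw [this, Valuation.map_neg]
  exact h

theorem Cg.sub {x y x' y' : F} (h : Cg w x x') (h' : Cg w y y') : Cg w (x - y) (x' - y') := by
  rw [sub_eq_add_neg, sub_eq_add_neg]
  exact h.add h'.neg

theorem Cg.mul {x y x' y' : F} (hx : w x ≤ 1) (hy : w y' ≤ 1) (h : Cg w x x') (h' : Cg w y y') :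
    Cg w (x * y) (x' * y') := by
  unfold Cg at *
  have : x * y - x' * y' = x * (y - y') + (x - x') * y' := by ring
  rw [this]
  refine Valuation.map_add_lt _ ?_ ?_
  · rw [map_mul]
    exact lt_of_le_of_lt (mul_le_of_le_one_left zero_le hx) h'
  · rw [map_mul]
    exact lt_of_le_of_lt (mul_le_of_le_one_right zero_le hy) h

theorem Cg.le {x y : F} (h : Cg w x y) (hy : w y ≤ 1) : w x ≤ 1 := by
  have : x = (x - y) + y := by ring
  rw [this]
  exact Valuation.map_add_le _ (le_of_lt h) hy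

theorem Cg.pow {x y : F} (h : Cg w x y) (hy : w y ≤ 1) (n : ℕ) : Cg w (x ^ n) (y ^ n) := by
  have hx := h.le hy
  induction n with
  | zero => rw [pow_zero, pow_zero]; exact Cg.refl 1
  | succ n ih =>
    rw [pow_succ, pow_succ]
    refine ih.mul ?_ hy h
    rw [map_pow]
    exact pow_le_one₀ zero_le hx

theorem wle_pow {x : F} (h : w x ≤ 1) (n : ℕ) : w (x ^ n) ≤ 1 := by
  rw [map_pow]
  exact pow_le_one₀ zero_le h

theorem wle_mul {x y : F} (h : w x ≤ 1) (h' : w y ≤ 1) : w (x * y) ≤ 1 := by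
  rw [map_mul]
  exact mul_le_one' h h'

theorem frob (h3 : w 3 < 1) (f : ℕ) : ∀ x y : F, w x ≤ 1 → w y ≤ 1 →
    Cg w ((x + y) ^ (3 ^ f)) (x ^ (3 ^ f) + y ^ (3 ^ f)) := by
  induction f with
  | zero =>
    intro x y hx hy
    simp only [pow_zero, pow_one]
    exact Cg.refl _
  | succ f ih =>
    intro x y hx hy
    have h := ih x y hx hy
    have hx' := wle_pow hx (3 ^ f)
    have hy' := wle_pow hy (3 ^ f)
    have h1 := h.pow (Valuation.map_add_le _ hx' hy') 3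
    rw [pow_succ, pow_mul, pow_mul, pow_mul]
    refine h1.trans ?_
    generalize x ^ 3 ^ f = X at *
    generalize y ^ 3 ^ f = Y at *
    unfold Cg
    have e : (X + Y) ^ 3 - (X ^ 3 + Y ^ 3) = 3 * (X * Y * (X + Y)) := by ring
    rw [e, map_mul]
    refine lt_of_le_of_lt (mul_le_of_le_one_right zero_le ?_) h3
    exact wle_mul (wle_mul hx' hy') (Valuation.map_add_le _ hx' hy')

theorem odd_q {f : ℕ} : Odd (3 ^ f) := Odd.pow (by decide)

theorem Cg.of_pow (h3 : w 3 < 1) {f : ℕ} {x y : F} (hx : w x ≤ 1) (hy : w y ≤ 1)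
    (h : Cg w (x ^ (3 ^ f)) (y ^ (3 ^ f))) : Cg w x y := by
  have hxy : w (x - y) ≤ 1 := Valuation.map_sub_le _ hx hy
  have h1 := frob h3 f (x - y) y hxy hy
  rw [sub_add_cancel] at h1
  have h2 : Cg w ((x - y) ^ 3 ^ f) 0 := by
    have h4 := (h1.symm.trans h).sub (Cg.refl (w := w) (y ^ 3 ^ f))
    rw [add_sub_cancel_right, sub_self] at h4
    exact h4
  unfold Cg at h2 ⊢
  rw [sub_zero, map_pow] at h2
  by_contra h5
  rw [not_lt] at h5
  exact absurd h2 (not_lt.2 (one_le_pow₀ h5))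

theorem lt_of_prod3 {x y z : F} (h : w (x * y * z) < 1) : w x < 1 ∨ w y < 1 ∨ w z < 1 := by
  by_contra h5
  push Not at h5
  obtain ⟨a, b, c⟩ := h5
  rw [map_mul, map_mul] at h
  exact absurd h (not_lt.2 (one_le_mul (one_le_mul a b) c))

theorem triple (h3 : w 3 < 1) {f : ℕ} {u1 u2 u3 : F} (h1 : w u1 ≤ 1) (h2 : w u2 ≤ 1)
    (h4 : w u3 ≤ 1) (hp : u1 * u2 * u3 = 1)
    (hs1 : Cg w ((u1 + u2 + u3) ^ (3 ^ f)) (u1 + u2 + u3))
    (hs2 : Cg w ((u1 * u2 + u1 * u3 + u2 * u3) ^ (3 ^ f)) (u1 * u2 + u1 * u3 + u2 * u3)) :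
    Cg w (u1 ^ (3 ^ f)) u1 ∨ Cg w (u1 ^ (3 ^ f)) u2 ∨ Cg w (u1 ^ (3 ^ f)) u3 := by
  apply lt_of_prod3
  set s1 := u1 + u2 + u3 with hs1'
  set s2 := u1 * u2 + u1 * u3 + u2 * u3 with hs2'
  have ws1 : w s1 ≤ 1 := Valuation.map_add_le _ (Valuation.map_add_le _ h1 h2) h4
  have ws2 : w s2 ≤ 1 := Valuation.map_add_le _ (Valuation.map_add_le _ (wle_mul h1 h2)
    (wle_mul h1 h4)) (wle_mul h2 h4)
  have e1 : u1 ^ 3 + s2 * u1 = s1 * u1 ^ 2 + 1 := by
    rw [hs1', hs2']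
    linear_combination hp
  have f1 := frob h3 f (u1 ^ 3) (s2 * u1) (wle_pow h1 3) (wle_mul ws2 h1)
  have f2 := frob h3 f (s1 * u1 ^ 2) 1 (wle_mul ws1 (wle_pow h1 2)) (map_one w).le
  rw [e1] at f1
  rw [one_pow] at f2
  have hX : w (u1 ^ 3 ^ f) ≤ 1 := wle_pow h1 _
  have g1 : Cg w ((u1 ^ 3) ^ 3 ^ f + (s2 * u1) ^ 3 ^ f) ((u1 ^ 3 ^ f) ^ 3 + s2 * u1 ^ 3 ^ f) := by
    rw [mul_pow, ← pow_mul, mul_comm 3, pow_mul]
    exact (Cg.refl _).add (hs2.mul (wle_pow ws2 _) hX (Cg.refl _))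
  have g2 : Cg w ((s1 * u1 ^ 2) ^ 3 ^ f + 1) (s1 * (u1 ^ 3 ^ f) ^ 2 + 1) := by
    rw [mul_pow, ← pow_mul, mul_comm 2, pow_mul]
    exact (hs1.mul (wle_pow ws1 _) (wle_pow hX 2) (Cg.refl _)).add (Cg.refl _)
  have g3 := (g1.symm.trans f1.symm).trans (f2.trans g2)
  generalize u1 ^ 3 ^ f = X at *
  have e2 : (X - u1) * (X - u2) * (X - u3) = (X ^ 3 + s2 * X) - (s1 * X ^ 2 + 1) := by
    rw [hs1', hs2']
    linear_combination -hp
  rw [e2]
  exact g3

theorem cyc (h3 : w 3 < 1) {f : ℕ} {u1 u2 u3 : F} (h1 : w u1 ≤ 1) (h2 : w u2 ≤ 1)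
    (h4 : w u3 ≤ 1) (hp : u1 * u2 * u3 = 1)
    (j1 : Cg w (u1 ^ (3 ^ f)) u1 ∨ Cg w (u1 ^ (3 ^ f)) u2 ∨ Cg w (u1 ^ (3 ^ f)) u3)
    (j2 : Cg w (u2 ^ (3 ^ f)) u1 ∨ Cg w (u2 ^ (3 ^ f)) u2 ∨ Cg w (u2 ^ (3 ^ f)) u3)
    (j3 : Cg w (u3 ^ (3 ^ f)) u1 ∨ Cg w (u3 ^ (3 ^ f)) u2 ∨ Cg w (u3 ^ (3 ^ f)) u3)
    (n1 : ¬ Cg w (u1 ^ (3 ^ f)) u1) (n2 : ¬ Cg w (u2 ^ (3 ^ f)) u2)
    (n3 : ¬ Cg w (u3 ^ (3 ^ f)) u3) (d12 : ¬ Cg w u1 u2) (d13 : ¬ Cg w u1 u3)
    (d23 : ¬ Cg w u2 u3) : Cg w (u1 * u1 ^ (3 ^ f) * (u1 ^ (3 ^ f)) ^ (3 ^ f)) 1 := by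
  rcases j1 with j1 | j1 | j1
  · exact absurd j1 n1
  · -- `1 → 2`
    rcases j2 with j2 | j2 | j2
    · rcases j3 with j3 | j3 | j3
      · exact absurd (Cg.of_pow h3 h2 h4 (j2.trans j3.symm)) d23
      · exact absurd (Cg.of_pow h3 h1 h4 (j1.trans j3.symm)) d13
      · exact absurd j3 n3
    · exact absurd j2 n2
    · have hX : w (u1 ^ 3 ^ f) ≤ 1 := wle_pow h1 _
      have g1 : Cg w ((u1 ^ 3 ^ f) ^ 3 ^ f) u3 := (j1.pow h2 _).trans j2
      rw [← hp]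
      exact ((Cg.refl u1).mul h1 h2 j1).mul (wle_mul h1 hX) h4 g1
  · rcases j3 with j3 | j3 | j3
    · rcases j2 with j2 | j2 | j2
      · exact absurd (Cg.of_pow h3 h2 h4 (j2.trans j3.symm)) d23
      · exact absurd j2 n2
      · exact absurd (Cg.of_pow h3 h1 h2 (j1.trans j2.symm)) d12
    · have hX : w (u1 ^ 3 ^ f) ≤ 1 := wle_pow h1 _
      have g1 : Cg w ((u1 ^ 3 ^ f) ^ 3 ^ f) u2 := (j1.pow h4 _).trans j3
      have e : (1 : F) = u1 * u3 * u2 := by rw [← hp]; ring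
      rw [e]
      exact ((Cg.refl u1).mul h1 h4 j1).mul (wle_mul h1 hX) h2 g1
    · exact absurd j3 n3

/-- in residue characteristic three a root of unity of order three is `1` -/
theorem one_of_cube (h3 : w 3 < 1) {u : F} (h : w u ≤ 1) (hu : Cg w (u ^ 3) 1) : Cg w u 1 := by
  have e : u ^ 3 ^ 1 = u ^ 3 := by norm_num
  have e2 : (1 : F) ^ 3 ^ 1 = 1 := one_pow _
  refine Cg.of_pow (f := 1) h3 h (map_one w).le ?_
  rw [e, e2]
  exact hu

end frob

section residue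

variable {O F : Type} [CommRing O] [Field F] {w : Valuation F ℝ≥0} (φ : O →+* F) (I : Ideal O)
  [I.IsMaximal] [Finite (O ⧸ I)]

theorem pow_card_Cg (h0 : ∀ a ∈ I, w (φ a) < 1) (a : O) :
    Cg w (φ a ^ Nat.card (O ⧸ I)) (φ a) := by
  letI := Ideal.Quotient.field I
  letI : Fintype (O ⧸ I) := Fintype.ofFinite _
  have h1 : a ^ Nat.card (O ⧸ I) - a ∈ I := by
    rw [← Ideal.Quotient.eq, map_pow, Nat.card_eq_fintype_card]
    exact FiniteField.pow_card _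
  have h2 := h0 _ h1
  rw [map_sub, map_pow] at h2
  exact h2

theorem exists_res (h0 : ∀ a ∈ I, w (φ a) < 1) {y : F} (hy : w y ≤ 1)
    (hyq : Cg w (y ^ Nat.card (O ⧸ I)) y) : ∃ a : O, Cg w y (φ a) := by
  classical
  letI := Ideal.Quotient.field I
  letI : Fintype (O ⧸ I) := Fintype.ofFinite _
  rw [Nat.card_eq_fintype_card] at hyq
  set q := Fintype.card (O ⧸ I) with hq
  have hs : ∀ b : O ⧸ I, ∃ a : O, Ideal.Quotient.mk I a = b := Ideal.Quotient.mk_surjective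
  choose s hs using hs
  set Q : O[X] := X ^ q - X - ∏ b : O ⧸ I, (X - C (s b)) with hQ
  have hprod : (X ^ q - X : (O ⧸ I)[X]) = ∏ b : O ⧸ I, (X - C b) := by
    have h1 := FiniteField.roots_X_pow_card_sub_X (O ⧸ I)
    have hm : (X ^ q - X : (O ⧸ I)[X]).Monic := by
      apply Polynomial.monic_X_pow_sub
      rw [degree_X]
      exact_mod_cast Fintype.one_lt_card
    have hn : (X ^ q - X : (O ⧸ I)[X]).natDegree = q :=
      FiniteField.X_pow_card_sub_X_natDegree_eq (O ⧸ I) Fintype.one_lt_card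
    have h2 := Polynomial.prod_multiset_X_sub_C_of_monic_of_roots_card_eq hm (by
      rw [hn, h1, ← Finset.card_def, Finset.card_univ])
    rw [← h2, h1]
    rfl
  have hQ0 : Q.map (Ideal.Quotient.mk I) = 0 := by
    rw [hQ, Polynomial.map_sub, Polynomial.map_sub, Polynomial.map_pow, Polynomial.map_X,
      Polynomial.map_prod, hprod]
    simp only [Polynomial.map_sub, Polynomial.map_X, Polynomial.map_C, hs]
    rw [sub_self]
  have hco : ∀ n, w (φ (Q.coeff n)) < 1 := by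
    intro n
    apply h0
    rw [← Ideal.Quotient.eq_zero_iff_mem, ← Polynomial.coeff_map, hQ0, coeff_zero]
  have hev : w (Q.eval₂ φ y) < 1 := by
    rw [Polynomial.eval₂_eq_sum_range]
    refine Valuation.map_sum_lt _ one_ne_zero fun n _ => ?_
    rw [map_mul]
    exact lt_of_le_of_lt (mul_le_of_le_one_right zero_le (wle_pow hy n)) (hco n)
  have hev2 : Q.eval₂ φ y = (y ^ q - y) - ∏ b : O ⧸ I, (y - φ (s b)) := by
    rw [hQ, eval₂_sub, eval₂_sub, eval₂_pow, eval₂_X, Polynomial.eval₂_finset_prod]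
    simp only [eval₂_sub, eval₂_X, eval₂_C]
  have hpr : w (∏ b : O ⧸ I, (y - φ (s b))) < 1 := by
    have e : ∏ b : O ⧸ I, (y - φ (s b)) = (y ^ q - y) - Q.eval₂ φ y := by rw [hev2]; ring
    rw [e]
    exact lt_of_le_of_lt (Valuation.map_sub _ _ _) (max_lt hyq hev)
  by_contra hcon
  push Not at hcon
  rw [map_prod] at hpr
  refine absurd hpr (not_lt.2 ?_)
  refine Finset.one_le_prod'' fun b => ?_
  exact not_lt.1 (hcon (s b))

theorem card_eq (h3 : (3 : O) ∈ I) : ∃ f : ℕ, Nat.card (O ⧸ I) = 3 ^ f := by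
  letI := Ideal.Quotient.field I
  letI : Fintype (O ⧸ I) := Fintype.ofFinite _
  have h30 : ((3 : ℕ) : O ⧸ I) = 0 := by
    have h := Ideal.Quotient.eq_zero_iff_mem.2 h3
    rw [map_ofNat] at h
    exact_mod_cast h
  haveI : CharP (O ⧸ I) 3 := (CharP.charP_iff_prime_eq_zero Nat.prime_three).2 h30
  obtain ⟨n, _, hn⟩ := FiniteField.card (O ⧸ I) 3
  exact ⟨n, by rw [Nat.card_eq_fintype_card, hn]⟩

end residue

end Pool.Agent.K7.H89.U
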