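import Pool.Agent.K7.H56.U.A
import Pool.Agent.K7.H89.U.Res

/-!
# The local condition in residue characteristic three, when the cubic polynomial has no root
-/

set_option autoImplicit false
set_option linter.all false

open WeierstrassCurve WeierstrassCurve.Affine
open scoped NNReal Classical

namespace Pool.Agent.K7.H89.U

open Pool.Agent.TH115.GD
open Pool.Agent.K7.H56.U (LC lc1 root_act prod_perm)

section sq

variable {L Ω' : Type} [Field L] [Field Ω'] [Algebra L Ω'] [IsAlgClosed Ω'] [IsGalois L Ω']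
  [Algebra ℚ L] [Algebra ℚ Ω'] [IsScalarTower ℚ L Ω'] {V : WeierstrassCurve ℚ}
  (w : Valuation Ω' ℝ≥0) (hσ : ∀ (σ : Ω' ≃ₐ[L] Ω') (x : Ω'), w (σ x) = w x)

/-- the canonical square root of a principal unit -/
theorem sq_unit (h2 : w 2 = 1) {u : Ω'} (hu : w (u - 1) < 1) : ∃ y, y ^ 2 = u ∧ w (y - 1) < 1 := by
  obtain ⟨y, hy⟩ := IsAlgClosed.exists_pow_nat_eq u (n := 2) (by norm_num)
  have h1 : (y - 1) * (y + 1) = u - 1 := by rw [← hy]; ring
  have h3 : w (y - 1) * w (y + 1) < 1 := by rw [← map_mul, h1]; exact hu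
  by_cases h : w (y - 1) < 1
  · exact ⟨y, hy, h⟩
  · refine ⟨-y, by rw [neg_sq, hy], ?_⟩
    rw [not_lt] at h
    have h4 : w (y + 1) < 1 := by
      by_contra h5
      rw [not_lt] at h5
      exact absurd h3 (not_lt.2 (one_le_mul h h5))
    have : -y - 1 = -(y + 1) := by ring
    rw [this, Valuation.map_neg]
    exact h4

theorem sq_unit_uniq (h2 : w 2 = 1) {y y' : Ω'} (h : y ^ 2 = y' ^ 2) (hy : w (y - 1) < 1)
    (hy' : w (y' - 1) < 1) : y = y' := by
  rcases sq_eq_sq_iff_eq_or_eq_neg.1 h with h1 | h1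
  · exact h1
  · exfalso
    have h3 : (2 : Ω') = -((y - 1) + (y' - 1)) := by rw [h1]; ring
    have h4 : w (2 : Ω') < 1 := by
      rw [h3, Valuation.map_neg]
      exact Valuation.map_add_lt _ hy hy'
    rw [h2] at h4
    exact lt_irrefl _ h4

include hσ in
theorem lc_unit (h2 : w 2 = 1) {a b c : Ω'} (hC : IsC (V.baseChange Ω').toAffine a b c)
    {ζ p u : Ω' → Ω'} {D r : L} (hr : ζ a * ζ b * ζ c = algebraMap L Ω' r ^ 2)
    (h0 : ∀ e, cub V e = 0 → ζ e ≠ 0)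
    (hp : ∀ (σ : Ω' ≃ₐ[L] Ω') e, cub V e = 0 → σ (p e) = p (σ e))
    (hu : ∀ (σ : Ω' ≃ₐ[L] Ω') e, cub V e = 0 → σ (u e) = u (σ e))
    (hu1 : ∀ e, cub V e = 0 → w (u e - 1) < 1)
    (hζ : ∀ e, cub V e = 0 → ζ e = algebraMap L Ω' D * p e ^ 2 * u e) : LC L Ω' V ζ := by
  have ex : ∀ e : Ω', ∃ y : Ω', cub V e = 0 → y ^ 2 = u e ∧ w (y - 1) < 1 := by
    intro e
    by_cases he : cub V e = 0
    · obtain ⟨y, hy⟩ := sq_unit w h2 (hu1 e he)
      exact ⟨y, fun _ => hy⟩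
    · exact ⟨0, fun h => absurd h he⟩
  choose y hy using ex
  have hyσ : ∀ (σ : Ω' ≃ₐ[L] Ω') e, cub V e = 0 → σ (y e) = y (σ e) := by
    intro σ e he
    have he' := root_act σ he
    refine sq_unit_uniq w h2 ?_ ?_ (hy _ he').2
    · rw [← map_pow, (hy _ he).1, hu σ e he, (hy _ he').1]
    · have : σ (y e) - 1 = σ (y e - 1) := by rw [map_sub, map_one]
      rw [this, hσ]
      exact (hy _ he).2
  set s : Ω' → Ω' := fun e => p e * y e with hs
  have hsσ : ∀ (σ : Ω' ≃ₐ[L] Ω') e, cub V e = 0 → σ (s e) = s (σ e) := by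
    intro σ e he
    simp only [hs]
    rw [map_mul, hp σ e he, hyσ σ e he]
  have hζs : ∀ e, cub V e = 0 → ζ e = algebraMap L Ω' D * s e ^ 2 := by
    intro e he
    simp only [hs]
    rw [hζ e he, mul_pow, (hy e he).1]
    ring
  set Y := s a * s b * s c with hY
  have hYσ : ∀ σ : Ω' ≃ₐ[L] Ω', σ Y = Y := by
    intro σ
    rw [hY, map_mul, map_mul, hsσ σ a hC.root_a, hsσ σ b hC.root_b, hsσ σ c hC.root_c]
    exact prod_perm hC σ s
  have hne : ∀ e, cub V e = 0 → s e ≠ 0 ∧ algebraMap L Ω' D ≠ 0 := by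
    intro e he
    have h := h0 e he
    rw [hζs e he] at h
    exact ⟨fun h1 => h (by rw [h1]; ring), fun h1 => h (by rw [h1]; ring)⟩
  have hD := (hne a hC.root_a).2
  have hY0 : Y ≠ 0 := mul_ne_zero (mul_ne_zero (hne a hC.root_a).1 (hne b hC.root_b).1)
    (hne c hC.root_c).1
  rw [hζs a hC.root_a, hζs b hC.root_b, hζs c hC.root_c] at hr
  have hr' : algebraMap L Ω' D ^ 3 * Y ^ 2 = algebraMap L Ω' r ^ 2 := by
    rw [← hr, hY]
    ring
  set q := algebraMap L Ω' r / (algebraMap L Ω' D * Y) with hq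
  have hq2 : q ^ 2 = algebraMap L Ω' D := by
    rw [hq, div_pow, ← hr']
    field_simp
  refine lc1 fun e he => ⟨q * s e, fun σ hσe => ?_, ?_⟩
  · have h1 : σ q = q := by
      rw [hq, map_div₀, map_mul, hYσ, AlgEquiv.commutes, AlgEquiv.commutes]
    rw [map_mul, h1, hsσ σ e he, hσe]
  · rw [mul_pow, hq2, hζs e he]

end sq

section tr

variable {L Ω' : Type} [Field L] [Field Ω'] [Algebra L Ω'] [IsGalois L Ω']
  [Algebra ℚ L] [Algebra ℚ Ω'] [IsScalarTower ℚ L Ω'] {V : WeierstrassCurve ℚ}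

theorem no_fix (hnr : ∀ x : L, cub V x ≠ 0) {e : Ω'} (he : cub V e = 0) :
    ∃ σ : Ω' ≃ₐ[L] Ω', σ e ≠ e := by
  by_contra hcon
  push Not at hcon
  obtain ⟨x, hx⟩ := (InfiniteGalois.mem_range_algebraMap_iff_fixed e).2 hcon
  apply hnr x
  have h := cub_map V (IsScalarTower.toAlgHom ℚ L Ω') x
  have h1 : (IsScalarTower.toAlgHom ℚ L Ω') x = e := hx
  rw [h1, he] at h
  exact ((map_eq_zero (algebraMap L Ω')).1 h.symm)

theorem trans1 (hnr : ∀ x : L, cub V x ≠ 0) {a b c : Ω'}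
    (hC : IsC (V.baseChange Ω').toAffine a b c) : ∃ σ : Ω' ≃ₐ[L] Ω', σ a = b := by
  by_contra hcon
  push Not at hcon
  have hσa : ∀ σ : Ω' ≃ₐ[L] Ω', σ a = a ∨ σ a = c := by
    intro σ
    rcases hC.root (root_act σ hC.root_a) with h | h | h
    · exact Or.inl h
    · exact absurd h (hcon σ)
    · exact Or.inr h
  obtain ⟨σ, hσ⟩ := no_fix hnr hC.root_a
  have hσ1 : σ a = c := (hσa σ).resolve_left hσ
  obtain ⟨τ, hτ⟩ := no_fix hnr hC.root_b
  have hinv : ∀ x, τ⁻¹ (τ x) = x := fun x => by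
    rw [← AlgEquiv.mul_apply, inv_mul_cancel]; rfl
  rcases hC.root (root_act τ hC.root_b) with h | h | h
  · apply hcon τ⁻¹
    rw [← h, hinv]
  · exact hτ h
  · apply hcon (τ⁻¹ * σ)
    rw [AlgEquiv.mul_apply, hσ1, ← h, hinv]

theorem trans (hnr : ∀ x : L, cub V x ≠ 0) {a b c : Ω'}
    (hC : IsC (V.baseChange Ω').toAffine a b c) {x y : Ω'} (hx : cub V x = 0)
    (hy : cub V y = 0) : ∃ σ : Ω' ≃ₐ[L] Ω', σ x = y := by
  obtain ⟨x', x'', hC'⟩ := hC.at_root (hC.root hx)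
  rcases hC'.root hy with h | h | h
  · exact ⟨1, h.symm⟩
  · rw [h]; exact trans1 hnr hC'
  · rw [h]; exact trans1 hnr hC'.swap

end tr

section main

variable {L Ω' : Type} [Field L] [Field Ω'] [Algebra L Ω'] [IsAlgClosed Ω'] [IsGalois L Ω']
  [Algebra ℚ L] [Algebra ℚ Ω'] [IsScalarTower ℚ L Ω'] {V : WeierstrassCurve ℚ}
  (w : Valuation Ω' ℝ≥0) (hσ : ∀ (σ : Ω' ≃ₐ[L] Ω') (x : Ω'), w (σ x) = w x)

include hσ in
/-- the units are, up to squares, principal units -/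
theorem pow_one (h3 : w 3 < 1) {f : ℕ}
    (hfro : ∀ a : L, w (algebraMap L Ω' a) ≤ 1 →
      Cg w (algebraMap L Ω' a ^ 3 ^ f) (algebraMap L Ω' a))
    (hfix : ∀ y : Ω', w y ≤ 1 → Cg w (y ^ 3 ^ f) y → ∃ a : L, Cg w y (algebraMap L Ω' a))
    (hnr : ∀ x : L, cub V x ≠ 0) {a b c : Ω'} (hC : IsC (V.baseChange Ω').toAffine a b c)
    {u : Ω' → Ω'} (hu : ∀ (σ : Ω' ≃ₐ[L] Ω') e, cub V e = 0 → σ (u e) = u (σ e))
    (hu1 : ∀ e, cub V e = 0 → w (u e) = 1) (hp : u a * u b * u c = 1) {e : Ω'}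
    (he : cub V e = 0) : Cg w (u e * u e ^ 3 ^ f * (u e ^ 3 ^ f) ^ 3 ^ f) 1 := by
  -- arbitrary positions
  have hp' : ∀ {x y z : Ω'}, IsC (V.baseChange Ω').toAffine x y z → u x * u y * u z = 1 := by
    intro x y z h
    rw [← hp]
    rcases hC.root h.root_a with hx | hx | hx <;> rcases hC.root h.root_b with hy | hy | hy <;>
      rcases hC.root h.root_c with hz | hz | hz <;>
      first
        | exact absurd (hx.trans hy.symm) h.ab
        | exact absurd (hx.trans hz.symm) h.ac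
        | exact absurd (hy.trans hz.symm) h.bc
        | (rw [hx, hy, hz] <;> ring)
  have hge : ∀ {x y : Ω'} (σ : Ω' ≃ₐ[L] Ω'), Cg w x y → Cg w (σ x) (σ y) := by
    intro x y σ h
    unfold Cg at *
    rw [← map_sub, hσ]
    exact h
  -- if two of the residues agree, then all do
  have heq : ∀ {x y z : Ω'}, IsC (V.baseChange Ω').toAffine x y z → Cg w (u x) (u y) →
      Cg w (u x) (u z) := by
    intro x y z h hxy
    obtain ⟨σ, hσ1⟩ := trans hnr hC h.root_a h.root_c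
    have h1 := hge σ hxy
    rw [hu σ x h.root_a, hu σ y h.root_b, hσ1] at h1
    rcases h.root (root_act σ h.root_b) with h4 | h4 | h4
    · rw [h4] at h1; exact h1.symm
    · rw [h4] at h1; exact hxy.trans h1.symm
    · exact absurd (σ.injective (h4.trans hσ1.symm)) h.ab.symm
  -- if all residues agree, then they are one
  have hall : ∀ {x y z : Ω'}, IsC (V.baseChange Ω').toAffine x y z → Cg w (u x) (u y) →
      Cg w (u x) (u z) → Cg w (u x) 1 := by
    intro x y z h hxy hxz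
    have wx := (hu1 x h.root_a).le
    have wy := (hu1 y h.root_b).le
    have wz := (hu1 z h.root_c).le
    apply one_of_cube h3 wx
    rw [← hp' h]
    have e3 : u x ^ 3 = u x * u x * u x := by ring
    rw [e3]
    exact ((Cg.refl (u x)).mul wx wy hxy).mul (wle_mul wx wx) wz hxz
  have hone : ∀ x : Ω', Cg w x 1 → Cg w (x * x ^ 3 ^ f * (x ^ 3 ^ f) ^ 3 ^ f) 1 := by
    intro x hx
    have h1 := hx.pow (map_one w).le (3 ^ f)
    have h2 := h1.pow (wle_pow (map_one w).le _) (3 ^ f)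
    have wx := hx.le (map_one w).le
    have h4 := (hx.mul wx (wle_pow (map_one w).le _) h1).mul
      (wle_mul wx (wle_pow wx _)) (wle_pow (wle_pow (map_one w).le _) _) h2
    simpa using h4
  -- the coefficients
  have hcoef : ∀ {s : Ω'}, (∀ σ : Ω' ≃ₐ[L] Ω', σ s = s) → w s ≤ 1 → Cg w (s ^ 3 ^ f) s := by
    intro s hs ws
    obtain ⟨x, hx⟩ := (InfiniteGalois.mem_range_algebraMap_iff_fixed s).2 hs
    rw [← hx] at ws ⊢
    exact hfro x ws
  have hj : ∀ {x y z : Ω'}, IsC (V.baseChange Ω').toAffine x y z →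
      Cg w (u x ^ 3 ^ f) (u x) ∨ Cg w (u x ^ 3 ^ f) (u y) ∨ Cg w (u x ^ 3 ^ f) (u z) := by
    intro x y z h
    have wx := (hu1 x h.root_a).le
    have wy := (hu1 y h.root_b).le
    have wz := (hu1 z h.root_c).le
    have hperm : ∀ σ : Ω' ≃ₐ[L] Ω', (σ x = x ∧ σ y = y ∧ σ z = z) ∨ (σ x = x ∧ σ y = z ∧ σ z = y) ∨
        (σ x = y ∧ σ y = x ∧ σ z = z) ∨ (σ x = y ∧ σ y = z ∧ σ z = x) ∨
        (σ x = z ∧ σ y = x ∧ σ z = y) ∨ (σ x = z ∧ σ y = y ∧ σ z = x) := by
      intro σ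
      have hab : σ x ≠ σ y := fun h' => h.ab (σ.injective h')
      have hac : σ x ≠ σ z := fun h' => h.ac (σ.injective h')
      have hbc : σ y ≠ σ z := fun h' => h.bc (σ.injective h')
      rcases h.root (root_act σ h.root_a) with h1 | h1 | h1 <;>
        rcases h.root (root_act σ h.root_b) with h2 | h2 | h2 <;>
        rcases h.root (root_act σ h.root_c) with h4 | h4 | h4 <;>
        first
          | exact absurd (h1.trans h2.symm) hab
          | exact absurd (h1.trans h4.symm) hac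
          | exact absurd (h2.trans h4.symm) hbc
          | simp [h1, h2, h4]
    refine triple h3 wx wy wz (hp' h) (hcoef (fun σ => ?_) ?_) (hcoef (fun σ => ?_) ?_)
    · simp only [map_add, hu σ x h.root_a, hu σ y h.root_b, hu σ z h.root_c]
      rcases hperm σ with ⟨h1, h2, h4⟩ | ⟨h1, h2, h4⟩ | ⟨h1, h2, h4⟩ | ⟨h1, h2, h4⟩ |
        ⟨h1, h2, h4⟩ | ⟨h1, h2, h4⟩ <;> rw [h1, h2, h4] <;> ring
    · exact Valuation.map_add_le _ (Valuation.map_add_le _ wx wy) wz
    · simp only [map_add, map_mul, hu σ x h.root_a, hu σ y h.root_b, hu σ z h.root_c]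
      rcases hperm σ with ⟨h1, h2, h4⟩ | ⟨h1, h2, h4⟩ | ⟨h1, h2, h4⟩ | ⟨h1, h2, h4⟩ |
        ⟨h1, h2, h4⟩ | ⟨h1, h2, h4⟩ <;> rw [h1, h2, h4] <;> ring
    · exact Valuation.map_add_le _ (Valuation.map_add_le _ (wle_mul wx wy) (wle_mul wx wz))
        (wle_mul wy wz)
  -- the case of a fixed residue
  have hfx : ∀ {x y z : Ω'}, IsC (V.baseChange Ω').toAffine x y z → Cg w (u x ^ 3 ^ f) (u x) →
      Cg w (u x) (u y) := by
    intro x y z h hx
    obtain ⟨t, ht⟩ := hfix (u x) (hu1 x h.root_a).le hx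
    obtain ⟨σ, hσ1⟩ := trans hnr hC h.root_a h.root_b
    have h1 := hge σ ht
    rw [hu σ x h.root_a, hσ1, AlgEquiv.commutes] at h1
    exact ht.trans h1.symm
  obtain ⟨y, z, h⟩ := hC.at_root (hC.root he)
  by_cases hq : Cg w (u e) (u y) ∨ Cg w (u e) (u z)
  · rcases hq with hq | hq
    · exact hone _ (hall h hq (heq h hq))
    · exact hone _ (hall h (heq h.swap hq) hq)
  · push Not at hq
    obtain ⟨d1, d2⟩ := hq
    have d3 : ¬ Cg w (u y) (u z) := by
      intro h4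
      exact d1 (heq h.rot h4).symm
    have n1 : ¬ Cg w (u e ^ 3 ^ f) (u e) := fun h4 => d1 (hfx h h4)
    have n2 : ¬ Cg w (u y ^ 3 ^ f) (u y) := fun h4 => d3 (hfx h.rot h4)
    have n3 : ¬ Cg w (u z ^ 3 ^ f) (u z) := fun h4 => d2 (hfx h.rot.rot h4).symm
    refine cyc h3 (hu1 e h.root_a).le (hu1 y h.root_b).le (hu1 z h.root_c).le (hp' h) (hj h)
      ?_ ?_ n1 n2 n3 d1 d2 d3
    · rcases hj h.rot with h4 | h4 | h4
      · exact Or.inr (Or.inl h4)
      · exact Or.inr (Or.inr h4)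
      · exact Or.inl h4
    · rcases hj h.rot.rot with h4 | h4 | h4
      · exact Or.inr (Or.inr h4)
      · exact Or.inl h4
      · exact Or.inr (Or.inl h4)

include hσ in
/-- **The local condition in residue characteristic three, when the cubic has no root.** -/
theorem lc_abs (h2 : w 2 = 1) (h3 : w 3 < 1) {f : ℕ}
    (hfro : ∀ a : L, w (algebraMap L Ω' a) ≤ 1 →
      Cg w (algebraMap L Ω' a ^ 3 ^ f) (algebraMap L Ω' a))
    (hfix : ∀ y : Ω', w y ≤ 1 → Cg w (y ^ 3 ^ f) y → ∃ a : L, Cg w y (algebraMap L Ω' a))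
    (hnr : ∀ x : L, cub V x ≠ 0) {a b c : Ω'} (hC : IsC (V.baseChange Ω').toAffine a b c)
    {ζ : Ω' → Ω'} {r : L} (hr : ζ a * ζ b * ζ c = algebraMap L Ω' r ^ 2)
    (h0 : ∀ e, cub V e = 0 → ζ e ≠ 0)
    (hζ : ∀ (σ : Ω' ≃ₐ[L] Ω') e, cub V e = 0 → σ (ζ e) = ζ (σ e)) : LC L Ω' V ζ := by
  set R := algebraMap L Ω' r with hR
  have hR0 : R ≠ 0 := by
    intro h
    rw [h, zero_pow two_ne_zero] at hr
    exact mul_ne_zero (mul_ne_zero (h0 a hC.root_a) (h0 b hC.root_b)) (h0 c hC.root_c) hr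
  have hwall : ∀ x y, cub V x = 0 → cub V y = 0 → w (ζ x) = w (ζ y) := by
    intro x y hx hy
    obtain ⟨σ, hσ1⟩ := trans hnr hC hx hy
    rw [← hσ σ (ζ x), hζ σ x hx, hσ1]
  have hw3 : ∀ x, cub V x = 0 → w (ζ x) ^ 3 = w R ^ 2 := by
    intro x hx
    rw [← map_pow w R 2, ← hr, map_mul, map_mul, hwall a x hC.root_a hx,
      hwall b x hC.root_b hx, hwall c x hC.root_c hx]
    ring
  have hwR : w R ≠ 0 := (Valuation.ne_zero_iff _).2 hR0
  set u : Ω' → Ω' := fun e => ζ e ^ 3 / R ^ 2 with hu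
  have huσ : ∀ (σ : Ω' ≃ₐ[L] Ω') e, cub V e = 0 → σ (u e) = u (σ e) := by
    intro σ e he
    simp only [hu]
    rw [map_div₀, map_pow, map_pow, hζ σ e he, hR, AlgEquiv.commutes]
  have hu1 : ∀ e, cub V e = 0 → w (u e) = 1 := by
    intro e he
    simp only [hu]
    rw [map_div₀, map_pow, map_pow, hw3 e he, div_self (pow_ne_zero 2 hwR)]
  have hup : u a * u b * u c = 1 := by
    simp only [hu]
    have : ζ a ^ 3 / R ^ 2 * (ζ b ^ 3 / R ^ 2) * (ζ c ^ 3 / R ^ 2) =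
        (ζ a * ζ b * ζ c) ^ 3 / R ^ 6 := by
      field_simp
    rw [this, hr]
    field_simp
  have hkey := fun e (he : cub V e = 0) => pow_one w hσ h3 hfro hfix hnr hC huσ hu1 hup he
  set M : ℕ := 3 ^ f with hM
  obtain ⟨k, hk⟩ : ∃ k, 1 + M + M * M = 2 * k + 1 := by
    obtain ⟨j, hj⟩ : Even (M * (M + 1)) := Nat.even_mul_succ_self M
    exact ⟨j, by linarith [hj, (by ring : M * (M + 1) = M + M * M)]⟩
  have hum : ∀ e, u e * u e ^ M * (u e ^ M) ^ M = u e ^ (2 * k + 1) := by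
    intro e
    rw [← hk, ← pow_mul]
    ring
  have hu0 : ∀ e, cub V e = 0 → u e ≠ 0 := by
    intro e he h
    have := hu1 e he
    rw [h, map_zero] at this
    exact zero_ne_one this
  refine lc_unit w hσ h2 hC (D := 1) (r := r) (p := fun e => R / ζ e * u e ^ (k + 1))
    (u := fun e => (u e ^ (2 * k + 1))⁻¹) hr h0 (fun σ e he => ?_) (fun σ e he => ?_)
    (fun e he => ?_) (fun e he => ?_)
  · rw [map_mul, map_div₀, map_pow, huσ σ e he, hζ σ e he, hR, AlgEquiv.commutes]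
  · rw [map_inv₀, map_pow, huσ σ e he]
  · have h4 := hkey e he
    rw [hum] at h4
    have h5 : u e ^ (2 * k + 1) ≠ 0 := pow_ne_zero _ (hu0 e he)
    have h6 : (u e ^ (2 * k + 1))⁻¹ - 1 = -((u e ^ (2 * k + 1))⁻¹ * (u e ^ (2 * k + 1) - 1)) := by
      field_simp
      ring
    rw [h6, Valuation.map_neg, map_mul, map_inv₀, map_pow, hu1 e he, one_pow, _root_.inv_one,
      one_mul]
    exact h4
  · have h5 := hu0 e he
    have h6 := h0 e he
    rw [map_one, one_mul, mul_pow]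
    have h7 : (u e ^ (k + 1)) ^ 2 * (u e ^ (2 * k + 1))⁻¹ = u e := by
      have : (u e ^ (k + 1)) ^ 2 = u e ^ (2 * k + 1) * u e := by ring
      rw [this]
      field_simp
    rw [mul_assoc, h7]
    simp only [hu]
    field_simp

end main

end Pool.Agent.K7.H89.U
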