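import Pool.Agent.K7.H56.U.E
import Pool.Agent.K7.H89.U.Three0

/-!
# The local condition at the places above three where two is not a cube
-/

set_option autoImplicit false
set_option linter.all false

open NumberField IsDedekindDomain WithZero WeierstrassCurve WeierstrassCurve.Affine
open scoped NNReal Classical

namespace Pool.Agent.K7.H89.U

open Pool.Agent Pool.Agent.TH115.GD
open Pool.Agent.Y696 (Cb)
open Pool.Agent.K7.H56.M (W0 W0_Δ)
open Pool.Agent.K7.H56.U (LC lc_conv zt zt_ne zt_norm zt_equi root_two)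
open Pool.Agent.R425 (exists_data)

theorem lc_three1 {K : Type} [Field K] {L Ω' : Type} [Field L] [Field Ω'] [Algebra L Ω']
    [IsAlgClosed Ω'] [IsGalois L Ω'] [Algebra ℚ L] [Algebra ℚ Ω'] [IsScalarTower ℚ L Ω']
    (w : Valuation Ω' ℝ≥0) (hσ : ∀ (σ : Ω' ≃ₐ[L] Ω') (x : Ω'), w (σ x) = w x) (h2 : w 2 = 1)
    (h3 : w 3 < 1) {f : ℕ}
    (hfro : ∀ a : L, w (algebraMap L Ω' a) ≤ 1 →
      Cg w (algebraMap L Ω' a ^ 3 ^ f) (algebraMap L Ω' a))
    (hfix : ∀ y : Ω', w y ≤ 1 → Cg w (y ^ 3 ^ f) y → ∃ a : L, Cg w y (algebraMap L Ω' a))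
    (hc : ∀ y : L, y ^ 3 ≠ 2) {x : Cb K} {r : K} (g : K →+* L) (hr : x.N = r ^ 2)
    (hN : x.N ≠ 0) : LC L Ω' (Y702.G.sh W0) (zt x ((algebraMap L Ω').comp g)) := by
  have hΔ : W0.Δ ≠ 0 := by rw [W0_Δ]; norm_num
  have hV := Pool.Agent.R425.G.iv_sh W0 hΔ
  obtain ⟨e1, e2, e3, hC⟩ := Y355.G.V_roots hV.a1 hV.a3 hV.Δ Ω'
  have hnorm := zt_norm hC x ((algebraMap L Ω').comp g)
  have hr' : zt x ((algebraMap L Ω').comp g) e1 * zt x ((algebraMap L Ω').comp g) e2 *
      zt x ((algebraMap L Ω').comp g) e3 = algebraMap L Ω' (g r) ^ 2 := by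
    rw [hnorm, hr, map_pow]
    rfl
  exact lc_abs w hσ h2 h3 hfro hfix (fun y h => hc _ (root_two h)) hC hr'
    (fun e he => zt_ne _ hN he)
    (fun σ e he => zt_equi x (σ := (σ : Ω' →+* Ω')) (fun y => σ.commutes (g y)) e)

/-- **The local condition at a place above three where two is not a cube.** -/
theorem lc_three' {K : Type} [Field K] [NumberField K] {x : Cb K} {r : K} (hr : x.N = r ^ 2)
    (hN : x.N ≠ 0) (v : HeightOneSpectrum (𝓞 K)) (hv3 : ((3 : ℕ) : 𝓞 K) ∈ v.asIdeal)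
    (hc : ∀ y : v.adicCompletion K, y ^ 3 ≠ 2) :
    LC (v.adicCompletion K) (AlgebraicClosure (v.adicCompletion K)) (Y702.G.sh W0)
      (zt x (algebraMap K _)) := by
  haveI : CharZero (v.adicCompletion K) := algebraRat.charZero _
  haveI : IsGalois (v.adicCompletion K) (AlgebraicClosure (v.adicCompletion K)) := inferInstance
  haveI : CharZero (AlgebraicClosure (v.adicCompletion K)) := algebraRat.charZero _
  obtain ⟨w, hw1, hw2, hw3, hw4, hw5⟩ := exists_data v
  have hone : ∀ m : ℕ, ((m : ℕ) : 𝓞 K) ∉ v.asIdeal →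
      w ((m : ℕ) : AlgebraicClosure (v.adicCompletion K)) = 1 := by
    intro m hm
    have h5 := hw3 (m : 𝓞 K)
    have h6 := (hw4 (m : 𝓞 K)).not.2 hm
    simp only [map_natCast] at h5 h6
    exact le_antisymm h5 (not_lt.1 h6)
  have h2 : w (2 : AlgebraicClosure (v.adicCompletion K)) = 1 := by
    have := hone 2 (fun h => by
      have h7 := Ideal.sub_mem _ hv3 h
      have h8 : ((3 : ℕ) : 𝓞 K) - ((2 : ℕ) : 𝓞 K) = 1 := by push_cast; ring
      rw [h8] at h7
      exact v.isPrime.ne_top ((Ideal.eq_top_iff_one _).2 h7))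
    exact_mod_cast this
  have h3 : w (3 : AlgebraicClosure (v.adicCompletion K)) < 1 := by
    have := (hw4 (3 : 𝓞 K)).2 (by exact_mod_cast hv3)
    simp only [map_ofNat] at this
    exact this
  haveI : v.asIdeal.IsMaximal := v.isMaximal
  haveI : Finite (𝓞 K ⧸ v.asIdeal) := inferInstance
  obtain ⟨f, hf⟩ := card_eq v.asIdeal (by exact_mod_cast hv3)
  let φ : 𝓞 K →+* AlgebraicClosure (v.adicCompletion K) :=
    (algebraMap (v.adicCompletion K) (AlgebraicClosure (v.adicCompletion K))).comp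
      ((algebraMap K (v.adicCompletion K)).comp (algebraMap (𝓞 K) K))
  have hφ : ∀ a ∈ v.asIdeal, w (φ a) < 1 := fun a ha => (hw4 a).2 ha
  have hfro : ∀ a : v.adicCompletion K,
      w (algebraMap (v.adicCompletion K) (AlgebraicClosure (v.adicCompletion K)) a) ≤ 1 →
      Cg w (algebraMap (v.adicCompletion K) (AlgebraicClosure (v.adicCompletion K)) a ^ 3 ^ f)
        (algebraMap (v.adicCompletion K) (AlgebraicClosure (v.adicCompletion K)) a) := by
    intro a ha
    obtain ⟨o, ho⟩ := hw5 a ha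
    have h4 : Cg w (algebraMap (v.adicCompletion K) (AlgebraicClosure (v.adicCompletion K)) a)
      (φ o) := ho
    have h5 := pow_card_Cg φ v.asIdeal hφ o
    rw [hf] at h5
    exact ((h4.pow (hw3 o) _).trans h5).trans h4.symm
  have hfix : ∀ y : AlgebraicClosure (v.adicCompletion K), w y ≤ 1 → Cg w (y ^ 3 ^ f) y →
      ∃ a : v.adicCompletion K,
        Cg w y (algebraMap (v.adicCompletion K) (AlgebraicClosure (v.adicCompletion K)) a) := by
    intro y hy hyq
    rw [← hf] at hyq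
    obtain ⟨o, ho⟩ := exists_res φ v.asIdeal hφ hy hyq
    exact ⟨_, ho⟩
  exact lc_conv _ _ _ _ _ _ (lc_three1 w hw1 h2 h3 hfro hfix hc
    (algebraMap K (v.adicCompletion K)) hr hN)

end Pool.Agent.K7.H89.U
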