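import Pool.Agent.Y696.AlgD
import Pool.Agent.TeamU.B1
import Pool.Agent.R425.G.Hb

/-!
# The cubic extension `F(2^{1/3})` of a number field
-/

set_option autoImplicit false

namespace Pool.Agent.K7.H89.U

open IsDedekindDomain NumberField WithZero Pool.Agent.Y696

section cubic
variable {F A : Type} [Field F] [Field A] [Algebra F A]

/-- the coordinates -/
noncomputable def crd (e : Cb F ≃+* A) (he : ∀ r, e (Cb.C r) = algebraMap F A r) :
    A ≃ₗ[F] (Fin 3 → F) where
  toFun x := ![(e.symm x).a, (e.symm x).b, (e.symm x).c]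
  invFun f := e ⟨f 0, f 1, f 2⟩
  left_inv x := e.apply_symm_apply x
  right_inv f := by
    ext i
    fin_cases i <;> simp
  map_add' x y := by
    ext i
    fin_cases i <;> simp
  map_smul' r x := by
    have h1 : e.symm (r • x) = Cb.C r * e.symm x := by
      rw [Algebra.smul_def, map_mul, ← he, RingEquiv.symm_apply_apply]
    ext i
    rw [h1]
    fin_cases i <;> simp

end cubic

/-- the cubic extension exists -/
theorem exists_A (F : Type) [Field F] [NumberField F] (h3 : ∀ x : F, x ^ 3 ≠ 2) :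
    ∃ (A : Type) (_ : Field A) (_ : NumberField A) (_ : Algebra F A) (e : Cb F ≃+* A),
      ∀ r, e (Cb.C r) = algebraMap F A r := by
  let p : Polynomial F := Polynomial.X ^ 3 - Polynomial.C 2
  have hp : Irreducible p := X_pow_sub_C_irreducible_of_prime Nat.prime_three h3
  have : Fact (Irreducible p) := ⟨hp⟩
  have hm : p.Monic := Polynomial.monic_X_pow_sub_C _ (by norm_num)
  have hd : p.natDegree = 3 := Polynomial.natDegree_X_pow_sub_C
  have : Module.Finite F (AdjoinRoot p) := (AdjoinRoot.powerBasis' hm).finite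
  have : CharZero (AdjoinRoot p) :=
    charZero_of_injective_algebraMap (algebraMap F (AdjoinRoot p)).injective
  have : IsScalarTower ℚ F (AdjoinRoot p) := inferInstance
  have : NumberField (AdjoinRoot p) :=
    { to_charZero := inferInstance
      to_finiteDimensional := Module.Finite.trans F (AdjoinRoot p) }
  have hroot : (AdjoinRoot.root p) ^ 3 = 2 := by
    have h1 := AdjoinRoot.eval₂_root p
    simp only [p, Polynomial.eval₂_sub, Polynomial.eval₂_pow, Polynomial.eval₂_X,
      Polynomial.eval₂_ofNat, map_ofNat] at h1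
    exact sub_eq_zero.1 h1
  let f : Cb F →+* AdjoinRoot p := Cb.hom _ (algebraMap F (AdjoinRoot p)) (AdjoinRoot.root p) hroot
  have hf : ∀ r, f (Cb.C r) = algebraMap F (AdjoinRoot p) r := by
    intro r
    simp [f, Cb.hom_apply]
  have hinj : Function.Injective f := by
    rw [injective_iff_map_eq_zero]
    intro x hx
    by_contra hx0
    have h1 := Cb.N_ne h3 hx0
    have h2 : f (x * x.adj) = 0 := by rw [map_mul, hx, zero_mul]
    rw [Cb.mul_adj, hf] at h2
    exact h1 ((map_eq_zero _).1 h2)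
  have hsurj : Function.Surjective f := by
    intro y
    obtain ⟨q, rfl⟩ := AdjoinRoot.mk_surjective y
    have h1 : AdjoinRoot.mk p q ∈ f.range := by
      induction q using Polynomial.induction_on with
      | C a => exact ⟨Cb.C a, hf a⟩
      | add q r hq hr =>
        rw [map_add]
        exact add_mem hq hr
      | monomial n a h =>
        rw [pow_succ, ← mul_assoc, map_mul]
        refine mul_mem h ⟨Cb.pi, ?_⟩
        simp [f, Cb.hom_apply]
    exact h1
  refine ⟨AdjoinRoot p, inferInstance, inferInstance, inferInstance,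
    RingEquiv.ofBijective f ⟨hinj, hsurj⟩, hf⟩

section gen
variable {F A : Type} [Field F] [NumberField F] [Field A] [NumberField A] [Algebra F A]

lemma finrank_A (e : Cb F ≃+* A) (he : ∀ r, e (Cb.C r) = algebraMap F A r) :
    Module.finrank F A = 3 := by
  rw [(crd e he).finrank_eq, Module.finrank_fin_fun]

lemma finrank_A_rat (e : Cb F ≃+* A) (he : ∀ r, e (Cb.C r) = algebraMap F A r) :
    Module.finrank ℚ A = 3 * Module.finrank ℚ F := by
  rw [← Module.finrank_mul_finrank ℚ F A, finrank_A e he, mul_comm]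

omit [NumberField F] [NumberField A] in
lemma e_eq (e : Cb F ≃+* A) (he : ∀ r, e (Cb.C r) = algebraMap F A r) (x : Cb F) :
    e x = algebraMap F A x.a + algebraMap F A x.b * e Cb.pi +
    algebraMap F A x.c * e Cb.pi ^ 2 := by
  conv_lhs => rw [Cb.form x]
  simp only [map_add, map_mul, map_pow, he]

omit [NumberField F] [NumberField A] [Algebra F A] in
lemma e_cube (e : Cb F ≃+* A) : e Cb.pi ^ 3 = 2 := by
  rw [← map_pow, Cb.pi_cube, map_ofNat]

end gen

section sg
variable {F : Type} [Field F]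

/-- the automorphism -/
noncomputable def sg (ω : F) (hω : ω ^ 2 + ω + 1 = 0) : Cb F ≃+* Cb F where
  toFun x := ⟨x.a, ω * x.b, ω ^ 2 * x.c⟩
  invFun x := ⟨x.a, ω ^ 2 * x.b, ω * x.c⟩
  left_inv x := by
    have h3 : ω ^ 3 = 1 := by linear_combination (ω - 1) * hω
    ext
    · rfl
    · show ω ^ 2 * (ω * x.b) = x.b
      linear_combination x.b * h3
    · show ω * (ω ^ 2 * x.c) = x.c
      linear_combination x.c * h3
  right_inv x := by
    have h3 : ω ^ 3 = 1 := by linear_combination (ω - 1) * hω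
    ext
    · rfl
    · show ω * (ω ^ 2 * x.b) = x.b
      linear_combination x.b * h3
    · show ω ^ 2 * (ω * x.c) = x.c
      linear_combination x.c * h3
  map_add' x y := by ext <;> simp <;> ring
  map_mul' x y := by
    have h3 : ω ^ 3 = 1 := by linear_combination (ω - 1) * hω
    ext
    · show _ = x.a * y.a + 2 * (ω * x.b * (ω ^ 2 * y.c) + ω ^ 2 * x.c * (ω * y.b))
      rw [Cb.mul_a]
      linear_combination -2 * (x.b * y.c + x.c * y.b) * h3
    · show ω * _ = x.a * (ω * y.b) + ω * x.b * y.a + 2 * (ω ^ 2 * x.c * (ω ^ 2 * y.c))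
      rw [Cb.mul_b]
      linear_combination -2 * x.c * y.c * ω * h3
    · show ω ^ 2 * _ = x.a * (ω ^ 2 * y.c) + ω * x.b * (ω * y.b) + ω ^ 2 * x.c * y.a
      rw [Cb.mul_c]
      ring

lemma norm_sg (ω : F) (hω : ω ^ 2 + ω + 1 = 0) (x : Cb F) :
    x * sg ω hω x * sg ω hω (sg ω hω x) = Cb.C x.N := by
  have h3 : ω ^ 3 = 1 := by linear_combination (ω - 1) * hω
  have e2 : sg ω hω (sg ω hω x) = ⟨x.a, ω * (ω * x.b), ω ^ 2 * (ω ^ 2 * x.c)⟩ := rfl
  have e1 : x * sg ω hω x =
      ⟨x.a ^ 2 - 2 * x.b * x.c, ω ^ 2 * (2 * x.c ^ 2 - x.a * x.b), ω * (x.b ^ 2 - x.a * x.c)⟩ := by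
    have e0 : (sg ω hω x) = ⟨x.a, ω * x.b, ω ^ 2 * x.c⟩ := rfl
    rw [e0]
    ext
    · simp only [Cb.mul_a]
      linear_combination 2 * x.b * x.c * hω
    · simp only [Cb.mul_b]
      linear_combination x.a * x.b * hω
    · simp only [Cb.mul_c]
      linear_combination x.a * x.c * hω
  rw [e1, e2]
  ext
  · simp only [Cb.mul_a, Cb.C_a, Cb.N]
    linear_combination (2 * (2 * x.c ^ 3 - x.a * x.b * x.c) * (ω ^ 3 + 1) +
      2 * (x.b ^ 3 - x.a * x.b * x.c)) * h3
  · simp only [Cb.mul_b, Cb.C_b]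
    linear_combination (2 * ω ^ 2 * (x.b ^ 2 * x.c - x.a * x.c ^ 2)) * h3
  · simp only [Cb.mul_c, Cb.C_c]
    linear_combination (ω * (x.a ^ 2 * x.c - x.a * x.b ^ 2)) * h3

lemma sg_C (ω : F) (hω : ω ^ 2 + ω + 1 = 0) (r : F) : sg ω hω (Cb.C r) = Cb.C r := by
  ext
  · rfl
  · show ω * 0 = 0
    rw [mul_zero]
  · show ω ^ 2 * 0 = 0
    rw [mul_zero]

variable {A : Type} [Field A] [Algebra F A]

/-- the automorphism of the cubic extension -/
noncomputable def sgA (e : Cb F ≃+* A) (ω : F) (hω : ω ^ 2 + ω + 1 = 0) : A ≃+* A :=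
  (e.symm.trans (sg ω hω)).trans e

omit [Algebra F A] in
lemma sgA_apply (e : Cb F ≃+* A) (ω : F) (hω : ω ^ 2 + ω + 1 = 0) (x : A) :
    sgA e ω hω x = e (sg ω hω (e.symm x)) := rfl

lemma sgA_algebraMap (e : Cb F ≃+* A) (he : ∀ r, e (Cb.C r) = algebraMap F A r) (ω : F)
    (hω : ω ^ 2 + ω + 1 = 0) (r : F) : sgA e ω hω (algebraMap F A r) = algebraMap F A r := by
  rw [sgA_apply, ← he, RingEquiv.symm_apply_apply, sg_C]

lemma norm_sgA (e : Cb F ≃+* A) (he : ∀ r, e (Cb.C r) = algebraMap F A r) (ω : F)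
    (hω : ω ^ 2 + ω + 1 = 0) (x : A) :
    x * sgA e ω hω x * sgA e ω hω (sgA e ω hω x) = algebraMap F A (e.symm x).N := by
  obtain ⟨x, rfl⟩ := e.surjective x
  rw [sgA_apply, sgA_apply, e.symm_apply_apply, e.symm_apply_apply, ← map_mul, ← map_mul, norm_sg,
    he]

end sg

end Pool.Agent.K7.H89.U
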