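import Pool.Agent.K7.H89.U.A

/-!
# Ranks and `S`-units
-/

set_option autoImplicit false

namespace Pool.Agent.K7.H89.U

open IsDedekindDomain NumberField WithZero Pool.Agent.Y696
open Pool.Agent.TeamU (SU su_fg su_rank index_sq)
open Pool.Agent.R425.G (Sqr SqrH Two mem_two sqrH_le)

section units

variable {M : Type} [Field M] [NumberField M]

theorem su_idx (S : Finset (HeightOneSpectrum (𝓞 M))) :
    (Sqr (SU S)).index = 2 ^ (Units.rank M + S.card) * Nat.card (Two (SU S)) := by
  have := su_fg S
  rw [← su_rank S]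
  exact index_sq (SU S)

open Classical in
theorem two_su (S : Finset (HeightOneSpectrum (𝓞 M))) : Nat.card (Two (SU S)) = 2 := by
  have key : ∀ x : Two (SU S), ((x.1 : SU S) : Mˣ) = 1 ∨ ((x.1 : SU S) : Mˣ) = -1 := by
    intro x
    have h1 := x.2
    rw [mem_two] at h1
    have h2 : (((x.1 : SU S) : Mˣ) : M) ^ 2 = 1 ^ 2 := by
      have := congrArg (fun z : SU S => (((z : Mˣ)) : M)) h1
      rw [one_pow]
      exact this
    rcases sq_eq_sq_iff_eq_or_eq_neg.1 h2 with h3 | h3
    · exact Or.inl (Units.ext h3)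
    · exact Or.inr (Units.ext (by rw [h3]; rfl))
  have hinj : Function.Injective (fun x : Two (SU S) => (decide (((x.1 : SU S) : Mˣ) = 1) : Bool)) := by
    intro x y h
    simp only at h
    rw [decide_eq_decide] at h
    apply Subtype.ext
    apply Subtype.ext
    rcases key x with h1 | h1
    · rw [h1, h.1 h1]
    · rcases key y with h2 | h2
      · rw [h2, h.2 h2]
      · rw [h1, h2]
  have : Finite (Two (SU S)) := Finite.of_injective _ hinj
  apply le_antisymm
  · have := Nat.card_le_card_of_injective _ hinj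
    simpa using this
  · have hm1 : (-1 : Mˣ) ∈ SU S := by
      intro v _
      show v.valuation M (((-1 : Mˣ)) : M) = 1
      rw [Units.val_neg, Units.val_one, Valuation.map_neg, map_one]
    have h1 : (⟨-1, hm1⟩ : SU S) ∈ Two (SU S) := by
      rw [mem_two]
      apply Subtype.ext
      show (-1 : Mˣ) ^ 2 = 1
      rw [neg_one_sq]
    have hne : (1 : Two (SU S)) ≠ ⟨⟨-1, hm1⟩, h1⟩ := by
      intro h
      have h2 := congrArg (fun z : Two (SU S) => (((z.1 : SU S) : Mˣ) : M)) h
      have h3 : (1 : M) = -1 := h2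
      have h4 : (2 : M) = 0 := by linear_combination h3
      exact two_ne_zero h4
    have : Fintype (Two (SU S)) := Fintype.ofFinite _
    rw [Nat.card_eq_fintype_card]
    exact Fintype.one_lt_card_iff.2 ⟨_, _, hne⟩

theorem sqr_sub {G : Type} [CommGroup G] (K : Subgroup G) :
    (Sqr K).index = (SqrH K).relIndex K := by
  have e1 : Sqr K = (SqrH K).subgroupOf K := by
    ext x
    constructor
    · rintro ⟨y, rfl⟩
      exact ⟨y.1, y.2, rfl⟩
    · rintro ⟨y, hy, hyx⟩
      exact ⟨⟨y, hy⟩, Subtype.ext hyx⟩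
  rw [e1]
  rfl

theorem idx_su (S : Finset (HeightOneSpectrum (𝓞 M))) :
    (SqrH (SU S)).relIndex (SU S) = 2 ^ (Units.rank M + S.card + 1) := by
  rw [← sqr_sub, su_idx, two_su, pow_succ]

/-- the rank of the units of a field containing the third roots of unity -/
theorem rank_of {ω : M} (hω : ω ^ 2 + ω + 1 = 0) :
    2 * (Units.rank M + 1) = Module.finrank ℚ M := by
  classical
  have h1 := InfinitePlace.card_add_two_mul_card_eq_rank M
  have h2 := InfinitePlace.card_eq_nrRealPlaces_add_nrComplexPlaces M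
  have h3 : InfinitePlace.nrRealPlaces M = 0 := by
    unfold InfinitePlace.nrRealPlaces
    rw [Fintype.card_eq_zero_iff]
    refine ⟨fun w => ?_⟩
    have hr := InfinitePlace.embedding_of_isReal w.2
    have e1 : (hr ω) ^ 2 + hr ω + 1 = 0 := by
      rw [← map_pow, ← map_add, ← map_one hr, ← map_add, hω, map_zero]
    nlinarith [sq_nonneg (hr ω + 1 / 2)]
  have h4 : 0 < Fintype.card (InfinitePlace M) := Fintype.card_pos
  unfold Units.rank
  omega

end units

end Pool.Agent.K7.H89.U
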