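import Pool.Agent.K7.H89.U.B

/-!
# The primes of the cubic extension
-/

set_option autoImplicit false
set_option linter.unusedSectionVars false

namespace Pool.Agent.K7.H89.U

open IsDedekindDomain NumberField WithZero Pool.Agent.Y696
open Pool.Agent.TeamU (SU)
open Pool.Agent.R425.G (Sqr SqrH Two mem_two sqrH_le)

section ovr
variable {F A : Type} [Field F] [NumberField F] [Field A] [NumberField A] [Algebra F A]

lemma over_mem {u : HeightOneSpectrum (𝓞 A)} {v : HeightOneSpectrum (𝓞 F)}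
    (h : u.asIdeal.LiesOver v.asIdeal) (y : 𝓞 F) :
    y ∈ v.asIdeal ↔ algebraMap (𝓞 F) (𝓞 A) y ∈ u.asIdeal := by
  have h1 := (Ideal.liesOver_iff _ _).1 h
  conv_lhs => rw [h1]
  exact Iff.rfl

lemma coe_alg (y : 𝓞 F) : ((algebraMap (𝓞 F) (𝓞 A) y : 𝓞 A) : A) = algebraMap F A (y : F) := rfl

lemma over_k {u : HeightOneSpectrum (𝓞 A)} {v : HeightOneSpectrum (𝓞 F)}
    (h : u.asIdeal.LiesOver v.asIdeal) :
    ∃ k : ℕ, k ≠ 0 ∧ ∀ x : F, u.valuation A (algebraMap F A x) = v.valuation F x ^ k := by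
  have h1 : ∀ x : F, u.valuation A (algebraMap F A x) =
      v.valuation F x ^ v.asIdeal.ramificationIdx' u.asIdeal := fun x =>
    (HeightOneSpectrum.valuation_liesOver A v u x).symm
  refine ⟨_, ?_, h1⟩
  intro h0
  obtain ⟨y, hy, hy0⟩ := Submodule.exists_mem_ne_zero_of_ne_bot v.ne_bot
  have h2 := h1 (y : F)
  rw [h0, pow_zero, ← coe_alg] at h2
  have h3 := (HeightOneSpectrum.valuation_eq_one_iff_notMem (K := A) u).1 h2
  exact h3 ((over_mem h y).1 hy)

lemma over_eq_one {u : HeightOneSpectrum (𝓞 A)} {v : HeightOneSpectrum (𝓞 F)}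
    (h : u.asIdeal.LiesOver v.asIdeal) {x : F} :
    u.valuation A (algebraMap F A x) = 1 ↔ v.valuation F x = 1 := by
  obtain ⟨k, hk, h1⟩ := over_k h
  rw [h1]
  exact pow_eq_one_iff_of_nonneg zero_le hk

lemma over_lt_one {u : HeightOneSpectrum (𝓞 A)} {v : HeightOneSpectrum (𝓞 F)}
    (h : u.asIdeal.LiesOver v.asIdeal) {x : F} :
    u.valuation A (algebraMap F A x) < 1 ↔ v.valuation F x < 1 := by
  obtain ⟨k, hk, h1⟩ := over_k h
  rw [h1]
  exact pow_lt_one_iff_of_nonneg zero_le hk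

lemma over_of_val {u : HeightOneSpectrum (𝓞 A)} {v : HeightOneSpectrum (𝓞 F)}
    (h : ∀ y : 𝓞 F, y ∈ v.asIdeal → u.valuation A (algebraMap F A (y : F)) < 1) :
    u.asIdeal.LiesOver v.asIdeal := by
  rw [Ideal.liesOver_iff]
  have hm : v.asIdeal.IsMaximal := v.isPrime.isMaximal v.ne_bot
  refine hm.eq_of_le ?_ ?_
  · exact Ideal.IsPrime.ne_top inferInstance
  · intro y hy
    have h1 := h y hy
    rw [← coe_alg] at h1
    exact (HeightOneSpectrum.valuation_lt_one_iff_mem (K := A) u _).1 h1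

lemma over_unique {u : HeightOneSpectrum (𝓞 A)} {v v' : HeightOneSpectrum (𝓞 F)}
    (h : u.asIdeal.LiesOver v.asIdeal) (h' : u.asIdeal.LiesOver v'.asIdeal) : v = v' := by
  apply HeightOneSpectrum.ext
  rw [(Ideal.liesOver_iff _ _).1 h, (Ideal.liesOver_iff _ _).1 h']

lemma exists_under (u : HeightOneSpectrum (𝓞 A)) :
    ∃ v : HeightOneSpectrum (𝓞 F), u.asIdeal.LiesOver v.asIdeal := by
  refine ⟨⟨u.asIdeal.under (𝓞 F), inferInstance, fun h => ?_⟩, ⟨rfl⟩⟩
  exact u.ne_bot (Ideal.eq_bot_of_comap_eq_bot h)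

lemma exists_over (v : HeightOneSpectrum (𝓞 F)) :
    ∃ u : HeightOneSpectrum (𝓞 A), u.asIdeal.LiesOver v.asIdeal := exists_above v

lemma over_finite (w : HeightOneSpectrum (𝓞 F)) :
    {u : HeightOneSpectrum (𝓞 A) | u.asIdeal.LiesOver w.asIdeal}.Finite := by
  obtain ⟨y, hy, hy0⟩ := Submodule.exists_mem_ne_zero_of_ne_bot w.ne_bot
  have h0 : Ideal.span {algebraMap (𝓞 F) (𝓞 A) y} ≠ 0 := by
    rw [Ne, Ideal.zero_eq_bot, Ideal.span_singleton_eq_bot]
    intro h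
    apply hy0
    have h1 : algebraMap F A (y : F) = 0 := by rw [← coe_alg, h]; rfl
    have h2 : (y : F) = 0 := (map_eq_zero _).1 h1
    exact RingOfIntegers.coe_eq_zero_iff.1 h2
  refine (Ideal.finite_factors h0).subset fun u hu => ?_
  rw [Set.mem_ofPred_eq, Ideal.dvd_span_singleton]
  exact (over_mem hu y).1 hy

/-- the primes over `w` -/
noncomputable def SS (A : Type) [Field A] [NumberField A] [Algebra F A]
    (w : HeightOneSpectrum (𝓞 F)) : Finset (HeightOneSpectrum (𝓞 A)) :=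
  (over_finite (A := A) w).toFinset

lemma mem_SS {w : HeightOneSpectrum (𝓞 F)} {u : HeightOneSpectrum (𝓞 A)} :
    u ∈ SS A w ↔ u.asIdeal.LiesOver w.asIdeal := by
  rw [SS, Set.Finite.mem_toFinset]
  rfl

end ovr

section cubic
variable {F A : Type} [Field F] [NumberField F] [Field A] [NumberField A] [Algebra F A]
  (e : Cb F ≃+* A) (he : ∀ r, e (Cb.C r) = algebraMap F A r)

omit [Field A] [NumberField A] [Algebra F A] in
lemma val_two {v : HeightOneSpectrum (𝓞 F)}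
    (hv : ((6 : ℕ) : 𝓞 F) ∉ v.asIdeal) : v.valuation F 2 = 1 ∧ v.valuation F 3 = 1 := by
  have h1 : v.valuation F ((6 : ℕ) : F) = 1 := by
    have := (HeightOneSpectrum.valuation_eq_one_iff_notMem (K := F) v).2 hv
    rwa [map_natCast] at this
  have h2 : v.valuation F ((2 : ℕ) : F) ≤ 1 := by
    have := v.valuation_le_one (K := F) ((2 : ℕ) : 𝓞 F)
    change v.valuation F (algebraMap (𝓞 F) F ((2 : ℕ) : 𝓞 F)) ≤ 1 at this
    rwa [map_natCast] at this
  have h3 : v.valuation F ((3 : ℕ) : F) ≤ 1 := by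
    have := v.valuation_le_one (K := F) ((3 : ℕ) : 𝓞 F)
    change v.valuation F (algebraMap (𝓞 F) F ((3 : ℕ) : 𝓞 F)) ≤ 1 at this
    rwa [map_natCast] at this
  have h4 : ((6 : ℕ) : F) = ((2 : ℕ) : F) * ((3 : ℕ) : F) := by norm_num
  rw [h4, map_mul] at h1
  have h5 : v.valuation F ((2 : ℕ) : F) = 1 := by
    refine le_antisymm h2 ?_
    rw [← h1]
    exact mul_le_of_le_one_right' h3
  refine ⟨by exact_mod_cast h5, ?_⟩
  rw [h5, one_mul] at h1
  exact_mod_cast h1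

/-- the cube root of two -/
noncomputable def thI : 𝓞 A := ⟨e Cb.pi, by
  refine ⟨Polynomial.X ^ 3 - Polynomial.C 2, Polynomial.monic_X_pow_sub_C _ (by norm_num), ?_⟩
  simp [e_cube e]⟩

omit [NumberField F] [Algebra F A] in
lemma thI_cube : (thI e) ^ 3 = 2 := by
  apply RingOfIntegers.ext
  change (e Cb.pi) ^ 3 = algebraMap (𝓞 A) A 2
  rw [map_ofNat]
  exact e_cube e

/-- the ring of integers contains the order generated by the cube root of two -/
noncomputable def gI : Cb (𝓞 F) →+* 𝓞 A := Cb.hom _ (algebraMap (𝓞 F) (𝓞 A)) (thI e) (thI_cube e)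

include he in
lemma gI_coe (x : Cb (𝓞 F)) :
    algebraMap (𝓞 A) A (gI e x) = e (Cb.map (algebraMap (𝓞 F) F) x) := by
  rw [e_eq e he]
  rw [gI, Cb.hom_apply]
  rfl

include he in
lemma exists_u (v : HeightOneSpectrum (𝓞 F)) (x : 𝓞 F) (hx : x ^ 3 - 2 ∈ v.asIdeal) :
    ∃ u : HeightOneSpectrum (𝓞 A), u.asIdeal.LiesOver v.asIdeal ∧
      u.valuation A (e Cb.pi - algebraMap F A (x : F)) < 1 := by
  let _ : Algebra (Cb (𝓞 F)) (𝓞 A) := (gI e).toAlgebra
  have hinj : Function.Injective (gI e) := by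
    intro a b h
    have h1 := congrArg (algebraMap (𝓞 A) A) h
    rw [gI_coe e he, gI_coe e he] at h1
    exact Cb.map_inj (RingOfIntegers.coe_injective) (e.injective h1)
  have hcomp : (gI e).comp (Cb.C : 𝓞 F →+* Cb (𝓞 F)) = algebraMap (𝓞 F) (𝓞 A) := by
    refine RingHom.ext fun y => ?_
    rw [RingHom.comp_apply, gI, Cb.hom_apply, Cb.C_a, Cb.C_b, Cb.C_c, map_zero, zero_mul,
      zero_mul, add_zero, add_zero]
  have hint : (gI e).IsIntegral := by
    refine RingHom.IsIntegral.tower_top (Cb.C : 𝓞 F →+* Cb (𝓞 F)) _ ?_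
    rw [hcomp]
    exact algebraMap_isIntegral_iff.2 inferInstance
  have hI : Algebra.IsIntegral (Cb (𝓞 F)) (𝓞 A) := algebraMap_isIntegral_iff.1 hint
  have hx' : (Ideal.Quotient.mk v.asIdeal x) ^ 3 = 2 := by
    rw [← map_pow, ← map_ofNat (Ideal.Quotient.mk v.asIdeal), Ideal.Quotient.mk_eq_mk_iff_sub_mem]
    exact hx
  have hprime : v.asIdeal.IsPrime := v.isPrime
  set φ : Cb (𝓞 F) →+* 𝓞 F ⧸ v.asIdeal := Cb.hom _ (Ideal.Quotient.mk v.asIdeal) _ hx' with hφ
  have hP : (RingHom.ker φ).IsPrime := RingHom.ker_isPrime φ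
  obtain ⟨Q, hQ, hQc⟩ := Ideal.exists_ideal_over_prime_of_isIntegral_of_isDomain (S := 𝓞 A)
    (RingHom.ker φ) (by
      have : RingHom.ker (algebraMap (Cb (𝓞 F)) (𝓞 A)) = ⊥ := (RingHom.injective_iff_ker_eq_bot _).1 hinj
      rw [this]
      exact bot_le)
  have hmem : ∀ z : Cb (𝓞 F), gI e z ∈ Q ↔ φ z = 0 := by
    intro z
    rw [← RingHom.mem_ker, ← hQc]
    exact Iff.rfl
  have hC : ∀ y : 𝓞 F, algebraMap (𝓞 F) (𝓞 A) y ∈ Q ↔ y ∈ v.asIdeal := by
    intro y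
    rw [← hcomp, RingHom.comp_apply, hmem, hφ, Cb.hom_apply, Cb.C_a, Cb.C_b, Cb.C_c, map_zero,
      zero_mul, zero_mul, add_zero, add_zero, Ideal.Quotient.eq_zero_iff_mem]
  have hne : Q ≠ ⊥ := by
    rintro rfl
    obtain ⟨y, hy, hy0⟩ := Submodule.exists_mem_ne_zero_of_ne_bot v.ne_bot
    have h1 := (hC y).2 hy
    rw [Ideal.mem_bot, ← hcomp, RingHom.comp_apply] at h1
    have h2 : (Cb.C y : Cb (𝓞 F)) = 0 := hinj (by rw [h1, map_zero])
    exact hy0 (by rw [← Cb.C_a y, h2, Cb.zero_a])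
  refine ⟨⟨Q, hQ, hne⟩, ?_, ?_⟩
  · rw [Ideal.liesOver_iff]
    ext y
    exact (hC y).symm
  · have h1 : gI e (Cb.pi - Cb.C x) ∈ Q := by
      rw [hmem, map_sub, hφ, Cb.hom_apply, Cb.hom_apply]
      simp
    have h2 := (HeightOneSpectrum.valuation_lt_one_iff_mem (K := A) (⟨Q, hQ, hne⟩ :
      HeightOneSpectrum (𝓞 A)) _).2 h1
    change HeightOneSpectrum.valuation A _ (algebraMap (𝓞 A) A _) < 1 at h2
    rw [gI_coe e he] at h2
    rw [map_sub, Cb.map_pi, Cb.map_C, map_sub, he] at h2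
    exact h2

end cubic

end Pool.Agent.K7.H89.U
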