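import Pool.Agent.K7.H89.U.C

/-!
# The norm of the `S`-units and the condition away from six
-/

set_option autoImplicit false
set_option linter.unusedSectionVars false

namespace Pool.Agent.K7.H89.U

open IsDedekindDomain NumberField WithZero Pool.Agent.Y696
open Pool.Agent.TeamU (SU)
open Pool.Agent.R425.G (Sqr SqrH Two mem_two sqrH_le)

variable {F A : Type} [Field F] [NumberField F] [Field A] [NumberField A] [Algebra F A]
  (e : Cb F ≃+* A) (he : ∀ r, e (Cb.C r) = algebraMap F A r)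

omit [NumberField F] in
lemma om_int {ω : F} (hω : ω ^ 2 + ω + 1 = 0) : _root_.IsIntegral ℤ ω := by
  refine ⟨Polynomial.X ^ 2 + Polynomial.X + Polynomial.C 1, by monicity!, ?_⟩
  simpa using hω

lemma val_om {ω : F} (hω : ω ^ 2 + ω + 1 = 0) {v : HeightOneSpectrum (𝓞 F)}
    (hv : ((6 : ℕ) : 𝓞 F) ∉ v.asIdeal) : v.valuation F (ω - 1) = 1 := by
  obtain ⟨h2, h3⟩ := val_two hv
  have h0 : v.valuation F ω ≤ 1 := v.valuation_le_one (K := F) (⟨ω, om_int hω⟩ : 𝓞 F)
  have h1 : (ω - 1) * (-ω - 2) = 3 := by linear_combination -hω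
  have e1 : v.valuation F (ω - 1) ≤ 1 := v.valuation F |>.map_sub_le h0 (by rw [map_one])
  have e2 : v.valuation F (-ω - 2) ≤ 1 := by
    refine (v.valuation F).map_sub_le ?_ h2.le
    rwa [Valuation.map_neg]
  refine le_antisymm e1 ?_
  rw [← h3, ← h1, map_mul]
  exact mul_le_of_le_one_right' e2

include he in
lemma two_le_SS {ω : F} (hω : ω ^ 2 + ω + 1 = 0) {w : HeightOneSpectrum (𝓞 F)}
    (hw : ((6 : ℕ) : 𝓞 F) ∉ w.asIdeal) (x : 𝓞 F) (hx : x ^ 3 - 2 ∈ w.asIdeal) :
    2 ≤ (SS A w).card := by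
  have h3 : ω ^ 3 = 1 := by linear_combination (ω - 1) * hω
  set o : 𝓞 F := ⟨ω, om_int hω⟩ with ho
  have ho3 : o ^ 3 = 1 := by
    apply RingOfIntegers.ext
    exact h3
  obtain ⟨u1, h1, h1'⟩ := exists_u e he w x hx
  obtain ⟨u2, h2, h2'⟩ := exists_u e he w (o * x) (by rw [mul_pow, ho3, one_mul]; exact hx)
  obtain ⟨w2, w3⟩ := val_two hw
  have hne : u1 ≠ u2 := by
    rintro rfl
    have e1 : algebraMap F A ((ω - 1) * (x : F)) = (e Cb.pi - algebraMap F A (x : F)) -
        (e Cb.pi - algebraMap F A ((o * x : 𝓞 F) : F)) := by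
      have : ((o * x : 𝓞 F) : F) = ω * x := rfl
      rw [this, map_mul, map_mul, map_sub, map_one]
      ring
    have e2 : u1.valuation A (algebraMap F A ((ω - 1) * (x : F))) < 1 := by
      rw [e1]
      exact Valuation.map_sub_lt _ h1' h2'
    rw [over_lt_one h1, map_mul, val_om hω hw, one_mul] at e2
    have e3 : w.valuation F ((x : F) ^ 3 - 2) < 1 := by
      have := (HeightOneSpectrum.valuation_lt_one_iff_mem (K := F) w _).2 hx
      change w.valuation F (algebraMap (𝓞 F) F (x ^ 3 - 2)) < 1 at this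
      rw [map_sub, map_pow, map_ofNat] at this
      exact this
    have e4 : w.valuation F 2 < 1 := by
      have : (2 : F) = (x : F) ^ 3 - ((x : F) ^ 3 - 2) := by ring
      rw [this]
      refine Valuation.map_sub_lt _ ?_ e3
      rw [map_pow]
      exact pow_lt_one₀ zero_le e2 (by norm_num)
    rw [w2] at e4
    exact lt_irrefl _ e4
  exact Finset.one_lt_card.2 ⟨u1, mem_SS.2 h1, u2, mem_SS.2 h2, hne⟩

/-- the norm of the units -/
noncomputable def nrm : Aˣ →* Fˣ := Units.map
  { toFun := fun x => (e.symm x).N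
    map_one' := by rw [map_one, Cb.N_one]
    map_mul' := fun x y => by rw [map_mul, Cb.N_mul] }

lemma nrm_val (z : Aˣ) : (nrm e z : F) = (e.symm z).N := rfl

/-- the elements of `F` -/
noncomputable def io (F A : Type) [Field F] [Field A] [Algebra F A] : Fˣ →* Aˣ :=
  Units.map (algebraMap F A : F →* A)

lemma io_val (r : Fˣ) : (io F A r : A) = algebraMap F A r := rfl

include he in
lemma val_sg {ω : F} (hω : ω ^ 2 + ω + 1 = 0) {u : HeightOneSpectrum (𝓞 A)}
    {v : HeightOneSpectrum (𝓞 F)} (h : u.asIdeal.LiesOver v.asIdeal) :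
    ∃ u' : HeightOneSpectrum (𝓞 A), u'.asIdeal.LiesOver v.asIdeal ∧
      ∀ x, u.valuation A (sgA e ω hω x) = u'.valuation A x := by
  obtain ⟨u', hu'⟩ := val_aut (sgA e ω hω) u
  refine ⟨u', over_of_val fun y hy => ?_, hu'⟩
  rw [← hu', sgA_algebraMap e he, over_lt_one h]
  exact (HeightOneSpectrum.valuation_lt_one_iff_mem (K := F) v _).2 hy

include he in
lemma nrm_mem {ω : F} (hω : ω ^ 2 + ω + 1 = 0) {w : HeightOneSpectrum (𝓞 F)} {z : Aˣ}
    (hz : z ∈ SU (SS A w)) : nrm e z ∈ SU {w} := by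
  intro v hv
  show v.valuation F ((nrm e z : Fˣ) : F) = 1
  have hv' : v ≠ w := by
    rintro rfl
    exact hv (by simp)
  obtain ⟨u, hu⟩ := exists_over (A := A) v
  obtain ⟨u1, hu1, h1⟩ := val_sg e he hω hu
  obtain ⟨u2, hu2, h2⟩ := val_sg e he hω hu1
  have key : ∀ u' : HeightOneSpectrum (𝓞 A), u'.asIdeal.LiesOver v.asIdeal →
      u'.valuation A (z : A) = 1 := by
    intro u' hu'
    refine hz u' ?_
    intro hmem
    exact hv' (over_unique hu' (mem_SS.1 (Finset.mem_coe.1 hmem)))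
  rw [← over_eq_one hu, nrm_val, ← norm_sgA e he ω hω, map_mul, map_mul, h1, h1, h2, key u hu,
    key u1 hu1, key u2 hu2, one_mul, one_mul]

lemma io_mem {w : HeightOneSpectrum (𝓞 F)} {r : Fˣ} (hr : r ∈ SU {w}) :
    io F A r ∈ SU (SS A w) := by
  intro u hu
  show u.valuation A (algebraMap F A (r : F)) = 1
  obtain ⟨v, hv⟩ := exists_under (F := F) u
  rw [over_eq_one hv]
  refine hr v ?_
  intro hmem
  apply hu
  rw [Finset.mem_coe, mem_SS]
  have : v = w := by simpa using hmem
  rw [← this]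
  exact hv

include he in
lemma evV_of {v : HeightOneSpectrum (𝓞 F)} (hv : ((6 : ℕ) : 𝓞 F) ∉ v.asIdeal) {δ : Cb F}
    (hδ : ∀ u : HeightOneSpectrum (𝓞 A), u.asIdeal.LiesOver v.asIdeal →
      u.valuation A (e δ) = 1) : EvV (v.valuation F) δ := by
  obtain ⟨k1, hk1⟩ := exp_bd (v.valuation F) δ.b
  obtain ⟨k2, hk2⟩ := exp_bd (v.valuation F) δ.c
  obtain ⟨h2, h3⟩ := val_two hv
  refine ⟨k1 + k2 + 1, fun a ha => ⟨0, ?_⟩⟩
  rw [mul_zero, exp_zero]
  have ha0 : v.valuation F (a ^ 3 - 2) < 1 :=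
    lt_of_le_of_lt ha (by rw [← exp_zero, exp_lt_exp]; omega)
  have ha1 : v.valuation F a ≤ 1 := le_of_near _ ha0.le
  obtain ⟨x, hx⟩ := HeightOneSpectrum.exists_valuation_sub_lt_of_integer (K := F) v ha1 1
  have hx1 : v.valuation F ((x : F) - a) < 1 := hx
  have hxm : x ^ 3 - 2 ∈ v.asIdeal := by
    rw [← HeightOneSpectrum.valuation_lt_one_iff_mem (K := F)]
    change v.valuation F (algebraMap (𝓞 F) F (x ^ 3 - 2)) < 1
    have e1 : algebraMap (𝓞 F) F (x ^ 3 - 2) = (algebraMap (𝓞 F) F x - a) *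
        (algebraMap (𝓞 F) F x ^ 2 + algebraMap (𝓞 F) F x * a + a ^ 2) + (a ^ 3 - 2) := by
      rw [map_sub, map_pow, map_ofNat]
      ring
    rw [e1]
    refine Valuation.map_add_lt _ ?_ ha0
    rw [map_mul]
    have hxx := v.valuation_le_one (K := F) x
    refine mul_lt_one_of_nonneg_of_lt_one_left zero_le hx1 ?_
    refine Valuation.map_add_le _ (Valuation.map_add_le _ ?_ ?_) ?_
    · rw [map_pow]; exact pow_le_one' hxx 2
    · rw [map_mul]; exact mul_le_one' hxx ha1
    · rw [map_pow]; exact pow_le_one' ha1 2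
  obtain ⟨u, hu, hux⟩ := exists_u e he v x hxm
  obtain ⟨k, hk, hval⟩ := over_k hu
  set t : A := e Cb.pi with ht
  have ht3 : t ^ 3 = 2 := e_cube e
  set a' : A := algebraMap F A a with ha'
  have ua : u.valuation A a' ≤ 1 := by
    rw [ha', hval]
    exact pow_le_one' ha1 k
  have ut : u.valuation A t = 1 := by
    have h4 : u.valuation A t ^ 3 = 1 := by
      rw [← map_pow, ht3]
      have := (over_eq_one hu (x := (2 : F))).2 h2
      rwa [map_ofNat] at this
    exact (pow_eq_one_iff_of_nonneg zero_le (by norm_num)).1 h4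
  have uta : u.valuation A (t - a') < 1 := by
    have e1 : t - a' = (t - algebraMap F A (x : F)) + algebraMap F A ((x : F) - a) := by
      rw [map_sub]; ring
    rw [e1]
    exact Valuation.map_add_lt _ hux ((over_lt_one hu).2 hx1)
  have u3 : u.valuation A (3 * t ^ 2) = 1 := by
    have := (over_eq_one hu (x := (3 : F))).2 h3
    rw [map_ofNat] at this
    rw [map_mul, map_pow, ut, this, one_pow, one_mul]
  have uq : u.valuation A (t ^ 2 + t * a' + a' ^ 2) = 1 := by
    have e1 : t ^ 2 + t * a' + a' ^ 2 = 3 * t ^ 2 - (t - a') * (a' + 2 * t) := by ring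
    rw [e1, Valuation.map_sub_eq_of_lt_left, u3]
    rw [u3, map_mul]
    refine mul_lt_one_of_nonneg_of_lt_one_left zero_le uta ?_
    refine Valuation.map_add_le _ ua ?_
    rw [map_mul, ut, mul_one]
    exact v_two_le _
  have ud : u.valuation A (t - a') = v.valuation F (a ^ 3 - 2) ^ k := by
    rw [← hval]
    have e1 : algebraMap F A (a ^ 3 - 2) = -((t - a') * (t ^ 2 + t * a' + a' ^ 2)) := by
      rw [map_sub, map_pow, map_ofNat, ← ht3]
      ring
    rw [e1, Valuation.map_neg, map_mul, uq, mul_one]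
  have uy : u.valuation A (e δ - algebraMap F A (δ.ev a)) < 1 := by
    have e1 : e δ - algebraMap F A (δ.ev a) =
        (t - a') * (algebraMap F A δ.b + algebraMap F A δ.c * (t + a')) := by
      rw [e_eq e he, Cb.ev, map_add, map_add, map_mul, map_mul, map_pow]
      ring
    rw [e1, map_mul, ud]
    have h5 : u.valuation A (algebraMap F A δ.b + algebraMap F A δ.c * (t + a')) ≤
        exp ((k1 + k2 : ℕ) : ℤ) ^ k := by
      refine Valuation.map_add_le _ ?_ ?_
      · rw [hval]
        exact pow_le_pow_left' (hk1.trans (by rw [exp_le_exp]; push_cast; omega)) k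
      · rw [map_mul, hval]
        refine (mul_le_of_le_one_right' (Valuation.map_add_le _ ut.le ua)).trans ?_
        exact pow_le_pow_left' (hk2.trans (by rw [exp_le_exp]; push_cast; omega)) k
    refine lt_of_le_of_lt (mul_le_mul' (pow_le_pow_left' ha k) h5) ?_
    rw [← mul_pow, ← exp_add]
    refine pow_lt_one₀ zero_le ?_ hk
    rw [← exp_zero, exp_lt_exp]
    push_cast
    omega
  rw [← over_eq_one hu, ← hδ u hu]
  refine Valuation.map_eq_of_sub_lt _ ?_
  rw [Valuation.map_sub_swap, hδ u hu]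
  exact uy

end Pool.Agent.K7.H89.U
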