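import Pool.Agent.K7.H89.U.D

/-!
# The condition at two
-/

set_option autoImplicit false
set_option linter.unusedSectionVars false

namespace Pool.Agent.K7.H89.U

open IsDedekindDomain NumberField WithZero Pool.Agent.Y696
open Pool.Agent.TeamU (SU)
open Pool.Agent.R425.G (Sqr SqrH Two mem_two sqrH_le)

section loc
variable {M : Type} [Field M] {v : Valuation M ℤᵐ⁰}

lemma N_UV (h2 : v 2 < 1) {x : Cb M} (hx : UV v x) : v x.N = 1 := by
  obtain ⟨xa, xb, xc⟩ := hx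
  have e1 : x.N = x.a ^ 3 + 2 * (x.b ^ 3 + 2 * x.c ^ 3 - 3 * (x.a * x.b * x.c)) := by
    rw [Cb.N]; ring
  have h2' : v 2 ≤ 1 := h2.le
  have h3' : v 3 ≤ 1 := by
    have : (3 : M) = 2 + 1 := by norm_num
    rw [this]
    exact v.map_add_le h2' (by rw [map_one])
  have e2 : v (2 * (x.b ^ 3 + 2 * x.c ^ 3 - 3 * (x.a * x.b * x.c))) < 1 := by
    rw [map_mul]
    refine mul_lt_one_of_nonneg_of_lt_one_left zero_le h2 ?_
    refine v.map_sub_le (v.map_add_le ?_ ?_) ?_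
    · rw [map_pow]; exact pow_le_one' xb 3
    · rw [map_mul, map_pow]; exact mul_le_one' h2' (pow_le_one' xc 3)
    · rw [map_mul, map_mul, map_mul]
      exact mul_le_one' h3' (mul_le_one' (mul_le_one' xa.le xb) xc)
  have e3 : v (x.a ^ 3) = 1 := by rw [map_pow, xa, one_pow]
  rw [e1, Valuation.map_add_eq_of_lt_left]
  · exact e3
  · rw [e3]; exact e2

/-- the norm as a homomorphism -/
def Nh : Cb M →* M where
  toFun := Cb.N
  map_one' := Cb.N_one
  map_mul' := Cb.N_mul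

lemma uv_of (hv : v 2 = exp (-1 : ℤ)) {x : Cb M} (hx : v x.N = 1) : UV v x := by
  have h2 : v 2 < 1 := by rw [hv, ← exp_zero, exp_lt_exp]; omega
  have hx0 : x ≠ 0 := by
    rintro rfl
    have : (0 : Cb M).N = 0 := by simp [Cb.N]
    rw [this, map_zero] at hx
    exact zero_ne_one hx
  obtain ⟨i, u, hu, hxu⟩ := piU_dec hv hx0
  have e1 : (((piU (two_ne_of hv) ^ i : (Cb M)ˣ) : Cb M)).N = 2 ^ i := by
    have h1 : Units.map (Nh (M := M)) (piU (two_ne_of hv)) = Units.mk0 2 (two_ne_of hv) :=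
      Units.ext Cb.N_pi
    have h3 : Units.map (Nh (M := M)) (piU (two_ne_of hv) ^ i) =
        Units.mk0 2 (two_ne_of hv) ^ i := by rw [map_zpow, h1]
    have h4 := congrArg (fun z : Mˣ => (z : M)) h3
    simp only [Units.val_zpow_eq_zpow_val, Units.val_mk0] at h4
    exact h4
  rw [hxu, Cb.N_mul, map_mul, N_UV h2 hu, mul_one, e1, v_two_zpow hv, ← exp_zero] at hx
  have hi : i = 0 := by
    have := exp_injective hx
    omega
  rw [hxu, hi, zpow_zero, Units.val_one, one_mul]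
  exact hu

/-- the product of two units with the same invariant -/
lemma wv_of (h2 : v 2 < 1) {x y : Cb M} (hx : UV v x) (hy : UV v y) {r s : M}
    (hr : v (r * x.a - x.b) < 1) (hs : v (s * y.a - y.b) < 1) (hrs : v (r - s) < 1) :
    WV v (x * y) := by
  obtain ⟨q1, q2, q3⟩ := hx.mul h2 hy
  obtain ⟨xa, xb, xc⟩ := hx
  obtain ⟨ya, yb, yc⟩ := hy
  refine ⟨q1, ?_, q3⟩
  have e1 : (x * y).b = 2 * (x.a * y.b + x.c * y.c) - (r * x.a - x.b) * y.a +
      (r - s) * (x.a * y.a) + (s * y.a - y.b) * x.a := by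
    rw [Cb.mul_b]; ring
  rw [e1]
  refine v.map_add_lt (v.map_add_lt (v.map_sub_lt ?_ ?_) ?_) ?_
  · rw [map_mul]
    refine mul_lt_one_of_nonneg_of_lt_one_left zero_le h2 (v.map_add_le ?_ ?_)
    · rw [map_mul]; exact mul_le_one' xa.le yb
    · rw [map_mul]; exact mul_le_one' xc yc
  · rw [map_mul, ya, mul_one]; exact hr
  · rw [map_mul, map_mul, xa, ya, mul_one, mul_one]; exact hrs
  · rw [map_mul, xa, mul_one]; exact hs

end loc

section grp

lemma relIndex_le {G : Type} [CommGroup G] (I K : Subgroup G) {T : Type} [Finite T] (f : K → T)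
    (hf : ∀ x y : K, f x = f y → x.1 * y.1 ∈ I) (hs : ∀ x : K, x.1 ^ 2 ∈ I) :
    I.relIndex K ≠ 0 ∧ I.relIndex K ≤ Nat.card T := by
  have hinj : Function.Injective (fun q : K ⧸ I.subgroupOf K => f q.out) := by
    intro q q' h
    have h1 := hf _ _ h
    rw [← QuotientGroup.out_eq' q, ← QuotientGroup.out_eq' q']
    rw [QuotientGroup.eq, Subgroup.mem_subgroupOf]
    have h2 : ((((q.out : K)⁻¹ * q'.out : K) : K) : G) =
        ((q.out : K) : G) * ((q'.out : K) : G) * (((q.out : K) : G) ^ 2)⁻¹ := by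
      rw [Subgroup.coe_mul, Subgroup.coe_inv]
      generalize ((q.out : K) : G) = a
      generalize ((q'.out : K) : G) = b
      rw [pow_two, mul_inv, mul_comm a b, mul_assoc, mul_inv_cancel_left, mul_comm]
    rw [h2]
    exact I.mul_mem h1 (I.inv_mem (hs _))
  have hfin : Finite (K ⧸ I.subgroupOf K) := Finite.of_injective _ hinj
  have e1 : I.relIndex K = Nat.card (K ⧸ I.subgroupOf K) := rfl
  rw [e1]
  exact ⟨Nat.card_pos.ne', Nat.card_le_card_of_injective _ hinj⟩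

end grp

variable {F A : Type} [Field F] [NumberField F] [Field A] [NumberField A] [Algebra F A]
  (e : Cb F ≃+* A) (he : ∀ r, e (Cb.C r) = algebraMap F A r)

lemma card_two : Finite (𝓞 F ⧸ (Ideal.span {((2 : ℕ) : 𝓞 F)})) ∧
    Nat.card (𝓞 F ⧸ (Ideal.span {((2 : ℕ) : 𝓞 F)})) = 2 ^ Module.finrank ℚ F := by
  constructor
  · apply Ideal.finiteQuotientOfFreeOfNeBot
    rw [Ne, Ideal.span_singleton_eq_bot]
    exact Nat.cast_ne_zero.2 two_ne_zero
  · rw [← Submodule.cardQuot_apply, ← Ideal.absNorm_apply, Ideal.absNorm_span_natCast,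
      RingOfIntegers.rank]

lemma two_finite : {v : HeightOneSpectrum (𝓞 F) | ((2 : ℕ) : 𝓞 F) ∈ v.asIdeal}.Finite := by
  have h0 : Ideal.span {((2 : ℕ) : 𝓞 F)} ≠ 0 := by
    rw [Ne, Ideal.zero_eq_bot, Ideal.span_singleton_eq_bot]
    exact Nat.cast_ne_zero.2 two_ne_zero
  refine (Ideal.finite_factors h0).subset fun u hu => ?_
  rw [Set.mem_ofPred_eq, Ideal.dvd_span_singleton]
  exact hu

lemma exists_r (x : Cb F) (hx : ∀ v : HeightOneSpectrum (𝓞 F), ((2 : ℕ) : 𝓞 F) ∈ v.asIdeal →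
    UV (v.valuation F) x) :
    ∃ r : 𝓞 F, ∀ v : HeightOneSpectrum (𝓞 F), ((2 : ℕ) : 𝓞 F) ∈ v.asIdeal →
      v.valuation F ((r : F) * x.a - x.b) < 1 := by
  have h1 : ∀ v : {v : HeightOneSpectrum (𝓞 F) | ((2 : ℕ) : 𝓞 F) ∈ v.asIdeal}, ∃ s : 𝓞 F,
      v.1.valuation F ((s : F) * x.a - x.b) < 1 := by
    rintro ⟨v, hv⟩
    obtain ⟨xa, xb, -⟩ := hx v hv
    have hxa0 : x.a ≠ 0 := by
      intro h
      rw [h, map_zero] at xa
      exact zero_ne_one xa
    have h2 : v.valuation F (x.b / x.a) ≤ 1 := by rw [map_div₀, xa, div_one]; exact xb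
    obtain ⟨s, hs⟩ := HeightOneSpectrum.exists_valuation_sub_lt_of_integer (K := F) v h2 1
    refine ⟨s, ?_⟩
    have hs' : v.valuation F ((s : F) - x.b / x.a) < 1 := hs
    have e1 : (s : F) * x.a - x.b = ((s : F) - x.b / x.a) * x.a := by
      rw [sub_mul, div_mul_cancel₀ _ hxa0]
    rw [e1, map_mul, xa, mul_one]
    exact hs'
  choose s hs using h1
  have : Finite {v : HeightOneSpectrum (𝓞 F) | ((2 : ℕ) : 𝓞 F) ∈ v.asIdeal} := two_finite
  obtain ⟨r, hr⟩ := Ideal.exists_forall_sub_mem_ideal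
    (I := fun v : {v : HeightOneSpectrum (𝓞 F) | ((2 : ℕ) : 𝓞 F) ∈ v.asIdeal} => v.1.asIdeal)
    (fun v v' hne => HeightOneSpectrum.isCoprime_of_ne _ _ (fun h => hne (Subtype.ext h))) s
  refine ⟨r, fun v hv => ?_⟩
  have h2 := (HeightOneSpectrum.valuation_lt_one_iff_mem (K := F) v _).2 (hr ⟨v, hv⟩)
  change v.valuation F (algebraMap (𝓞 F) F _) < 1 at h2
  rw [map_sub] at h2
  have h3 := hs ⟨v, hv⟩
  have e1 : (r : F) * x.a - x.b = ((r : F) - (s ⟨v, hv⟩ : F)) * x.a +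
      ((s ⟨v, hv⟩ : F) * x.a - x.b) := by ring
  rw [e1]
  refine Valuation.map_add_lt _ ?_ h3
  rw [map_mul, (hx v hv).1, mul_one]
  exact h2

/-- the elements with the condition at two -/
def LL : Subgroup Aˣ where
  carrier := {z | ∀ v : HeightOneSpectrum (𝓞 F), ((2 : ℕ) : 𝓞 F) ∈ v.asIdeal →
    LvV (v.valuation F) (e.symm z)}
  one_mem' := fun v _ => by
    rw [Units.val_one, map_one]
    exact LvV.one _
  mul_mem' := fun {x y} hx hy v hv => by
    rw [Units.val_mul, map_mul]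
    refine (hx v hv).mul ?_ (hy v hv)
    have := (nat_mem_iff v 2).1 hv
    exact_mod_cast this
  inv_mem' := fun {x} hx v hv => by
    have e1 : e.symm (((x⁻¹ : Aˣ)) : A) = e.symm (x : A) * (e.symm ((x⁻¹ : Aˣ) : A)) ^ 2 := by
      rw [pow_two, ← mul_assoc, ← map_mul, Units.mul_inv, map_one, one_mul]
    rw [e1]
    refine (hx v hv).mul ?_ (LvV.sq _ ?_)
    · have := (nat_mem_iff v 2).1 hv
      exact_mod_cast this
    · intro h
      exact (nrm e x⁻¹).ne_zero h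

lemma mem_LL {z : Aˣ} : z ∈ LL e ↔ ∀ v : HeightOneSpectrum (𝓞 F), ((2 : ℕ) : 𝓞 F) ∈ v.asIdeal →
    LvV (v.valuation F) (e.symm z) := Iff.rfl

lemma sq_mem_LL (z : Aˣ) : z ^ 2 ∈ LL e := by
  rw [mem_LL]
  intro v _
  rw [Units.val_pow_eq_pow_val, map_pow]
  exact LvV.sq _ (nrm e z).ne_zero

include he in
theorem LL_idx {ω : F} (hω : ω ^ 2 + ω + 1 = 0)
    (h2 : ∀ v : HeightOneSpectrum (𝓞 F), ((2 : ℕ) : 𝓞 F) ∈ v.asIdeal →
      v.valuation F 2 = exp (-1 : ℤ))
    {w : HeightOneSpectrum (𝓞 F)} (hw : ((6 : ℕ) : 𝓞 F) ∉ w.asIdeal) :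
    (LL e).relIndex (SU (SS A w)) ≠ 0 ∧
      (LL e).relIndex (SU (SS A w)) ≤ 2 ^ Module.finrank ℚ F := by
  obtain ⟨hfin, hcard⟩ := card_two (F := F)
  have huv : ∀ z : SU (SS A w), ∀ v : HeightOneSpectrum (𝓞 F), ((2 : ℕ) : 𝓞 F) ∈ v.asIdeal →
      UV (v.valuation F) (e.symm (z.1 : A)) := by
    intro z v hv
    refine uv_of (h2 v hv) ?_
    have h3 := nrm_mem e he hω z.2
    refine h3 v ?_
    intro hmem
    have hvw : v = w := by simpa using hmem
    apply hw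
    rw [← hvw]
    have : ((6 : ℕ) : 𝓞 F) = ((3 : ℕ) : 𝓞 F) * ((2 : ℕ) : 𝓞 F) := by push_cast; norm_num
    rw [this]
    exact v.asIdeal.mul_mem_left _ hv
  choose r hr using fun z : SU (SS A w) => exists_r (e.symm (z.1 : A)) (huv z)
  rw [← hcard]
  refine relIndex_le (LL e) (SU (SS A w))
    (fun z => Ideal.Quotient.mk (Ideal.span {((2 : ℕ) : 𝓞 F)}) (r z)) ?_ ?_
  · intro x y hxy
    rw [mem_LL]
    intro v hv
    have h2v : v.valuation F 2 < 1 := by rw [h2 v hv, ← exp_zero, exp_lt_exp]; omega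
    rw [Ideal.Quotient.mk_eq_mk_iff_sub_mem, Ideal.mem_span_singleton] at hxy
    obtain ⟨c, hc⟩ := hxy
    have hrs : v.valuation F ((r x : F) - (r y : F)) < 1 := by
      have e1 : (r x : F) - (r y : F) = algebraMap (𝓞 F) F (r x - r y) := by rw [map_sub]
      rw [e1, hc, map_mul, map_natCast, map_mul]
      refine mul_lt_one_of_nonneg_of_lt_one_left zero_le ?_ (v.valuation_le_one (K := F) c)
      exact_mod_cast h2v
    have h3 := wv_of h2v (huv x v hv) (huv y v hv) (hr x v hv) (hr y v hv) hrs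
    refine ⟨1, by simp, ?_⟩
    rw [one_pow, mul_one, Units.val_mul, map_mul]
    exact h3
  · intro x
    exact sq_mem_LL e x.1

end Pool.Agent.K7.H89.U
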